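import Pool.Agent.SSC3.Pollard

set_option autoImplicit false
open MeasureTheory ProbabilityTheory Set Real
open scoped ENNReal

namespace Pool.Agent.SSC3

/-- The measure `2 (s-u) du` on `(0,s)`. -/
noncomputable def muS (s : ℝ) : Measure ℝ :=
  (volume.restrict (Ioo 0 s)).withDensity (fun u => ENNReal.ofReal (2 * (s - u)))

theorem muS_dens_meas (s : ℝ) : Measurable (fun u : ℝ => ENNReal.ofReal (2 * (s - u))) := by
  fun_prop

theorem lint_lin (s x m : ℝ) (hxm : x ≤ m) (hms : m ≤ s) :
    ∫⁻ u in Ioo x m, ENNReal.ofReal (2 * (s - u)) = ENNReal.ofReal ((s - x) ^ 2 - (s - m) ^ 2) := by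
  have h1 : ∫ u in x..m, (2 * (s - u)) = (s - x) ^ 2 - (s - m) ^ 2 := by
    rw [intervalIntegral.integral_const_mul, intervalIntegral.integral_sub]
    · simp only [intervalIntegral.integral_const, integral_id, smul_eq_mul]; ring
    · exact intervalIntegrable_const
    · exact continuous_id.intervalIntegrable _ _
  rw [← h1, intervalIntegral.integral_of_le hxm, integral_Ioc_eq_integral_Ioo,
    ofReal_integral_eq_lintegral_ofReal]
  · apply Continuous.integrableOn_Icc (by fun_prop) |>.mono_set Ioo_subset_Icc_self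
  · refine (ae_restrict_iff' measurableSet_Ioo).mpr (Filter.Eventually.of_forall ?_)
    intro u hu
    simp only [Pi.zero_apply]
    have := hu.2
    linarith

theorem muS_apply (s : ℝ) (S : Set ℝ) (hS : MeasurableSet S) :
    muS s S = ∫⁻ u in S ∩ Ioo 0 s, ENNReal.ofReal (2 * (s - u)) := by
  unfold muS
  rw [withDensity_apply _ hS, Measure.restrict_restrict hS]

theorem muS_univ (s : ℝ) (hs : 0 ≤ s) : muS s univ = ENNReal.ofReal (s ^ 2) := by
  rw [muS_apply s univ MeasurableSet.univ, univ_inter, lint_lin s 0 s hs le_rfl]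
  congr 1; ring

theorem set_cos (s x : ℝ) (hs : s ≤ 2 * π) (hx0 : 0 ≤ x) (hx : x ≤ π) :
    {u : ℝ | Real.cos u < Real.cos x} ∩ Ioo 0 s = Ioo x (min s (2 * π - x)) := by
  ext u
  simp only [mem_inter_iff, mem_ofPred_eq, mem_Ioo, lt_min_iff]
  constructor
  · rintro ⟨h1, h2, h3⟩
    refine ⟨?_, h3, ?_⟩
    · by_contra h
      push Not at h
      exact absurd h1 (not_lt.mpr (Real.cos_le_cos_of_nonneg_of_le_pi h2.le hx h))
    · by_contra h
      push Not at h
      have := Real.cos_le_cos_of_nonneg_of_le_pi (x := 2 * π - u) (y := x) (by linarith) hx (by linarith)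
      rw [Real.cos_two_pi_sub] at this
      linarith
  · rintro ⟨h1, h2, h3⟩
    refine ⟨?_, by linarith, h2⟩
    rcases le_total u π with h | h
    · exact Real.cos_lt_cos_of_nonneg_of_le_pi hx0 h h1
    · have := Real.cos_lt_cos_of_nonneg_of_le_pi (x := x) (y := 2 * π - u) hx0 (by linarith) (by linarith)
      rwa [Real.cos_two_pi_sub] at this

theorem muS_cos (s x : ℝ) (hs0 : 0 ≤ s) (hs : s ≤ 2 * π) (hx0 : 0 ≤ x) (hx : x ≤ π) :
    muS s {u : ℝ | Real.cos u < Real.cos x} = ENNReal.ofReal (s ^ 2 - Phi s x) := by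
  rw [muS_apply s _ (measurableSet_lt Real.continuous_cos.measurable measurable_const),
    set_cos s x hs hx0 hx]
  unfold Phi
  rcases le_total x (min s (2 * π - x)) with h | h
  · rw [lint_lin s x _ h (min_le_left _ _)]
    have h1 : x ≤ s := h.trans (min_le_left _ _)
    rw [max_eq_left (by linarith : 0 ≤ s - x)]
    congr 1
    rcases le_total s (2 * π - x) with h2 | h2
    · rw [min_eq_left h2, max_eq_right (by linarith : s - (2 * π - x) ≤ 0)]; ring
    · rw [min_eq_right h2, max_eq_left (by linarith : 0 ≤ s - (2 * π - x))]; ring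
  · rw [Ioo_eq_empty (not_lt.mpr h)]
    simp only [Measure.restrict_empty, lintegral_zero_measure]
    symm
    rw [ENNReal.ofReal_eq_zero]
    rcases le_total s (2 * π - x) with h2 | h2
    · rw [min_eq_left h2] at h
      rw [max_eq_right (by linarith : s - x ≤ 0), max_eq_right (by linarith : s - (2 * π - x) ≤ 0)]
      simp
    · rw [min_eq_right h2] at h
      have hxpi : x = π := by linarith
      have : s - (2 * π - x) = s - x := by rw [hxpi]; ring
      rw [this]
      simp

theorem continuous_ker (l : ℝ) : Continuous (ker l) := by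
  unfold ker; fun_prop

theorem W_eq (l s : ℝ) (hs : 0 ≤ s) :
    ENNReal.ofReal (W l s) = ∫⁻ u, ENNReal.ofReal (ker l u) ∂(muS s) := by
  unfold muS W
  have hk : Measurable (ker l) := (continuous_ker l).measurable
  rw [lintegral_withDensity_eq_lintegral_mul _ (muS_dens_meas s) (hk.ennreal_ofReal)]
  rw [← intervalIntegral.integral_const_mul, intervalIntegral.integral_of_le hs,
    integral_Ioc_eq_integral_Ioo, ofReal_integral_eq_lintegral_ofReal]
  · apply setLIntegral_congr_fun measurableSet_Ioo
    intro u hu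
    simp only [Pi.mul_apply]
    rw [← mul_assoc, ENNReal.ofReal_mul]
    have := hu.2
    linarith
  · have := continuous_ker l
    apply Continuous.integrableOn_Icc (by fun_prop) |>.mono_set Ioo_subset_Icc_self
  · refine (ae_restrict_iff' measurableSet_Ioo).mpr (Filter.Eventually.of_forall ?_)
    intro u hu
    simp only [Pi.zero_apply]
    have h1 := hu.2
    have h2 : 0 < ker l u := Real.exp_pos _
    have : 0 ≤ s - u := by linarith
    positivity

/-- The product measure carried by the pairs of angles. -/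
noncomputable def nuP (A B : Set ℝ) : Measure (ℝ × ℝ) :=
  (volume.restrict (A ∩ Ioo (-π) π)).prod (volume.restrict (B ∩ Ioo (-π) π))

theorem E2_eq (l : ℝ) (A B : Set ℝ) :
    E2 l A B = ∫⁻ p, ENNReal.ofReal (ker l (p.1 - p.2)) ∂(nuP A B) := by
  unfold nuP
  rw [lintegral_prod]
  · rfl
  · apply Measurable.aemeasurable
    apply ENNReal.measurable_ofReal.comp
    exact ((continuous_ker l).comp (by fun_prop)).measurable

theorem len_fin (A : Set ℝ) : volume (A ∩ Ioo (-π) π) ≠ ∞ :=
  ne_of_lt (lt_of_le_of_lt (measure_mono inter_subset_right) measure_Ioo_lt_top)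

theorem len_le (A : Set ℝ) : len A ≤ 2 * π := by
  unfold len
  refine ENNReal.toReal_le_of_le_ofReal (by positivity) ?_
  refine (measure_mono inter_subset_right).trans ?_
  rw [Real.volume_Ioo]
  apply le_of_eq; congr 1; ring

theorem len_nn (A : Set ℝ) : 0 ≤ len A := ENNReal.toReal_nonneg

theorem vol_eq_len (A : Set ℝ) : volume (A ∩ Ioo (-π) π) = ENNReal.ofReal (len A) := by
  unfold len
  rw [ENNReal.ofReal_toReal (len_fin A)]

theorem nuP_univ (A B : Set ℝ) : nuP A B univ = ENNReal.ofReal (len A * len B) := by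
  unfold nuP
  rw [← univ_prod_univ, Measure.prod_prod, Measure.restrict_apply_univ, Measure.restrict_apply_univ,
    vol_eq_len, vol_eq_len, ENNReal.ofReal_mul (len_nn A)]

theorem nuP_le (A B : Set ℝ) (x : ℝ) :
    nuP A B {p : ℝ × ℝ | Real.cos x ≤ Real.cos (p.1 - p.2)} = V A B x := by
  unfold nuP V
  rw [Measure.prod_restrict, Measure.restrict_apply]
  · congr 1
    ext p
    simp only [mem_inter_iff, mem_ofPred_eq, mem_prod]
    tauto
  · exact measurableSet_le measurable_const (by fun_prop)

theorem Phi_mono (s δ x : ℝ) (hδ : 0 ≤ δ) (h : δ ≤ s) (hx : 0 ≤ x) : Phi δ x ≤ Phi s x := by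
  unfold Phi
  have h1 : max (δ - (2 * π - x)) 0 ≤ max (s - (2 * π - x)) 0 := max_le_max (by linarith) le_rfl
  have h2 : 0 ≤ max (δ - (2 * π - x)) 0 := le_max_right _ _
  have h3 : (max (δ - (2 * π - x)) 0) ^ 2 ≤ (max (s - (2 * π - x)) 0) ^ 2 := by gcongr
  have h4 : 0 ≤ max (δ - x) 0 := le_max_right _ _
  have h5 : max (δ - x) 0 ≤ max (s - x) 0 := max_le_max (by linarith) le_rfl
  have h6 : max (s - x) 0 - max (δ - x) 0 ≤ s - δ := by
    rcases le_total (s - x) 0 with h7 | h7
    · rw [max_eq_right h7]; linarith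
    · rw [max_eq_left h7]
      have := le_max_left (δ - x) 0
      linarith
  have h8 : max (s - x) 0 ≤ s := max_le (by linarith) (by linarith)
  have h9 : max (δ - x) 0 ≤ δ := max_le (by linarith) hδ
  have h10 : (max (s - x) 0 - max (δ - x) 0) * (max (s - x) 0 + max (δ - x) 0) ≤ (s - δ) * (s + δ) := by
    apply mul_le_mul h6 (by linarith) (by linarith) (by linarith)
  nlinarith

theorem stoch_dom (A B : Set ℝ) (hA : MeasurableSet A) (hB : MeasurableSet B)
    (hPA : Per A) (hPB : Per B) (y : ℝ) :
    muS ((len A + len B) / 2) {u | Real.cos u < y}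
      ≤ nuP A B {p | Real.cos (p.1 - p.2) < y} + muS (|len A - len B| / 2) {u | Real.cos u < y} := by
  have ha := len_nn A
  have hb := len_nn B
  have ha2 := len_le A
  have hb2 := len_le B
  set a := len A with hadef
  set b := len B with hbdef
  set s := (a + b) / 2 with hs
  set δ := |a - b| / 2 with hδ
  have hs0 : 0 ≤ s := by positivity
  have hδ0 : 0 ≤ δ := by positivity
  have hs2 : s ≤ 2 * π := by rw [hs]; linarith
  have hδ2 : δ ≤ 2 * π := by
    rw [hδ]
    have : |a - b| ≤ 2 * π := abs_le.mpr ⟨by linarith, by linarith⟩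
    linarith
  have hsum : s ^ 2 = a * b + δ ^ 2 := by
    rw [hs, hδ, div_pow, div_pow, sq_abs]; ring
  rcases lt_or_ge 1 y with hy | hy
  · have e1 : {u : ℝ | Real.cos u < y} = univ := by
      ext u; simp only [mem_ofPred_eq, mem_univ, iff_true]
      exact lt_of_le_of_lt (Real.cos_le_one _) hy
    have e2 : {p : ℝ × ℝ | Real.cos (p.1 - p.2) < y} = univ := by
      ext u; simp only [mem_ofPred_eq, mem_univ, iff_true]
      exact lt_of_le_of_lt (Real.cos_le_one _) hy
    rw [e1, e2, muS_univ _ hs0, muS_univ _ hδ0, nuP_univ, ← ENNReal.ofReal_add (by positivity) (by positivity),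
      hsum]
  rcases le_or_gt y (-1) with hy' | hy'
  · have e1 : {u : ℝ | Real.cos u < y} = ∅ := by
      ext u; simp only [mem_ofPred_eq, mem_empty_iff_false, iff_false, not_lt]
      exact hy'.trans (Real.neg_one_le_cos _)
    rw [e1]; simp
  obtain ⟨x, hx0, hx, hxy⟩ : ∃ x, 0 ≤ x ∧ x ≤ π ∧ Real.cos x = y :=
    ⟨Real.arccos y, Real.arccos_nonneg y, Real.arccos_le_pi y, Real.cos_arccos hy'.le hy⟩
  rw [← hxy, muS_cos s x hs0 hs2 hx0 hx, muS_cos δ x hδ0 hδ2 hx0 hx]
  have hV := V_le A B hA hB hPA hPB x hx0 hx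
  rw [← hadef, ← hbdef, ← hs, ← hδ] at hV
  have hVfin : V A B x ≠ ∞ := ne_of_lt (lt_of_le_of_lt hV ENNReal.ofReal_lt_top)
  have hsplit : nuP A B {p : ℝ × ℝ | Real.cos (p.1 - p.2) < Real.cos x} + V A B x
      = ENNReal.ofReal (a * b) := by
    rw [← nuP_le A B, ← nuP_univ]
    rw [← measure_union]
    · congr 1
      ext p
      simp only [mem_union, mem_ofPred_eq, mem_univ, iff_true]
      exact lt_or_ge _ _
    · rw [Set.disjoint_left]
      intro p hp hp2
      simp only [mem_ofPred_eq] at hp hp2
      linarith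
    · exact measurableSet_le measurable_const (by fun_prop)
  refine (ENNReal.add_le_add_iff_right hVfin).mp ?_
  rw [add_right_comm, hsplit]
  have hPs : 0 ≤ s ^ 2 - Phi s x := by
    unfold Phi
    have h1 : max (s - (2 * π - x)) 0 ≤ max (s - x) 0 := max_le_max (by linarith) le_rfl
    have h2 : 0 ≤ max (s - (2 * π - x)) 0 := le_max_right _ _
    nlinarith
  have hPd : 0 ≤ δ ^ 2 - Phi δ x := by
    unfold Phi
    have h1 : max (δ - (2 * π - x)) 0 ≤ max (δ - x) 0 := max_le_max (by linarith) le_rfl
    have h2 : 0 ≤ max (δ - (2 * π - x)) 0 := le_max_right _ _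
    nlinarith
  calc ENNReal.ofReal (s ^ 2 - Phi s x) + V A B x
      ≤ ENNReal.ofReal (s ^ 2 - Phi s x) + ENNReal.ofReal (Phi s x - Phi δ x) := by gcongr
    _ = ENNReal.ofReal (a * b) + ENNReal.ofReal (δ ^ 2 - Phi δ x) := by
      have hδs : δ ≤ s := by
        rw [hδ, hs]
        have : |a - b| ≤ a + b := abs_le.mpr ⟨by linarith, by linarith⟩
        linarith
      have := Phi_mono s δ x hδ0 hδs hx0
      rw [← ENNReal.ofReal_add hPs (by linarith), ← ENNReal.ofReal_add (by positivity) hPd]
      congr 1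
      linarith

theorem riesz (l : ℝ) (hl : 0 ≤ l) (A B : Set ℝ) (hA : MeasurableSet A) (hB : MeasurableSet B)
    (hPA : Per A) (hPB : Per B) :
    ENNReal.ofReal (W l ((len A + len B) / 2))
      ≤ E2 l A B + ENNReal.ofReal (W l (|len A - len B| / 2)) := by
  have ha := len_nn A
  have hb := len_nn B
  have hkm : Measurable (ker l) := (continuous_ker l).measurable
  have hkm2 : Measurable (fun p : ℝ × ℝ => ker l (p.1 - p.2)) := hkm.comp (by fun_prop)
  rw [W_eq l _ (by positivity), W_eq l _ (by positivity), E2_eq]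
  have hk0 : ∀ u, 0 ≤ ker l u := fun u => (Real.exp_pos _).le
  rw [lintegral_eq_lintegral_meas_lt (muS ((len A + len B) / 2)) (Filter.Eventually.of_forall hk0)
      hkm.aemeasurable,
    lintegral_eq_lintegral_meas_lt (muS (|len A - len B| / 2)) (Filter.Eventually.of_forall hk0)
      hkm.aemeasurable,
    lintegral_eq_lintegral_meas_lt (nuP A B)
      (f := fun p : ℝ × ℝ => ker l (p.1 - p.2))
      (Filter.Eventually.of_forall (fun p => hk0 (p.1 - p.2))) hkm2.aemeasurable]
  rw [← lintegral_add_right]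
  · refine setLIntegral_mono' measurableSet_Ioi ?_
    intro t ht
    simp only [mem_Ioi] at ht
    rcases eq_or_lt_of_le hl with hl0 | hl0
    · -- l = 0
      subst hl0
      have := stoch_dom A B hA hB hPA hPB (if t < 1 then 2 else -2)
      rcases lt_or_ge t 1 with h | h
      · rw [if_pos h] at this
        have e1 : {u : ℝ | Real.cos u < 2} = univ := by
          ext u; simp only [mem_ofPred_eq, mem_univ, iff_true]
          linarith [Real.cos_le_one u]
        have e2 : {p : ℝ × ℝ | Real.cos (p.1 - p.2) < 2} = univ := by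
          ext u; simp only [mem_ofPred_eq, mem_univ, iff_true]
          linarith [Real.cos_le_one (u.1 - u.2)]
        have e3 : {u : ℝ | t < ker 0 u} = univ := by
          ext u; simp [ker, h]
        have e4 : {p : ℝ × ℝ | t < ker 0 (p.1 - p.2)} = univ := by
          ext u; simp [ker, h]
        rw [e1, e2] at this
        rw [e3, e4]
        exact this
      · have e3 : {u : ℝ | t < ker 0 u} = ∅ := by
          ext u; simp [ker, h]
        rw [e3]; simp
    · have hiff : ∀ u : ℝ, t < ker l u ↔ Real.cos u < -(Real.log t) / l := by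
        intro u
        unfold ker
        rw [lt_div_iff₀ hl0, ← Real.log_lt_iff_lt_exp ht]
        constructor <;> intro h <;> linarith
      simp only [hiff]
      exact stoch_dom A B hA hB hPA hPB _
  · apply Antitone.measurable
    intro t t' htt
    apply measure_mono
    intro u hu
    exact lt_of_le_of_lt htt hu

end Pool.Agent.SSC3
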