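import Pool.Agent.SSC3.OneD
import Pool.Agent.SSC3.Riesz

set_option autoImplicit false
open MeasureTheory ProbabilityTheory Set Real
open scoped ENNReal

namespace Pool.Agent.SSC3

theorem ker_pos (l t : ℝ) : 0 < ker l t := Real.exp_pos _

theorem W_nonneg (l : ℝ) {x : ℝ} (hx : 0 ≤ x) : 0 ≤ W l x := by
  unfold W
  refine mul_nonneg (by norm_num) (intervalIntegral.integral_nonneg hx ?_)
  intro u hu
  exact mul_nonneg (by linarith [hu.2]) (ker_pos l u).le

theorem len_nonneg (A : Set ℝ) : 0 ≤ len A := ENNReal.toReal_nonneg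

theorem cc_pos (l : ℝ) : 0 < cc l := by
  unfold cc
  have := Real.cosh_pos (l / 2)
  positivity

/-- [P5] the circle inequality. -/
theorem circle_ineq (l : ℝ) (hl : 0 ≤ l) (A B : Fin 3 → Set ℝ) (hA : ∀ i, MeasurableSet (A i))
    (hB : ∀ i, MeasurableSet (B i)) (hPA : ∀ i, Per (A i)) (hPB : ∀ i, Per (B i))
    (hsA : ∑ i, len (A i) = 2 * π) (hsB : ∑ i, len (B i) = 2 * π) :
    ENNReal.ofReal (3 * W l (2 * π / 3)) + ENNReal.ofReal (cc l * ∑ i, len (A i) * len (B i))
      ≤ ∑ i, E2 l (A i) (B i) + ENNReal.ofReal (cc l * ((2 * π) ^ 2 / 3)) := by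
  set s : Fin 3 → ℝ := fun i => (len (A i) + len (B i)) / 2 with hs
  set d : Fin 3 → ℝ := fun i => |len (A i) - len (B i)| / 2 with hd
  have hd0 : ∀ i, 0 ≤ d i := fun i => by positivity
  have hds : ∀ i, d i ≤ s i := by
    intro i
    have h1 := len_nonneg (A i)
    have h2 := len_nonneg (B i)
    simp only [hs, hd]
    have : |len (A i) - len (B i)| ≤ len (A i) + len (B i) := by
      rw [abs_le]; constructor <;> linarith
    linarith
  have hs0 : ∀ i, 0 ≤ s i := fun i => le_trans (hd0 i) (hds i)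
  have hsum : ∑ i, s i = 2 * π := by
    simp only [hs]
    rw [← Finset.sum_div, Finset.sum_add_distrib, hsA, hsB]; ring
  have h1 := oneD l hl s d hd0 hds hsum
  have hsd : ∀ i, (s i) ^ 2 - (d i) ^ 2 = len (A i) * len (B i) := by
    intro i
    simp only [hs, hd, div_pow, sq_abs]
    ring
  have hW0 : ∀ i, 0 ≤ W l (d i) := fun i => W_nonneg l (hd0 i)
  have h2 : 3 * W l (2 * π / 3) + cc l * (∑ i, len (A i) * len (B i)) + ∑ i, W l (d i)
      ≤ ∑ i, W l (s i) + cc l * ((2 * π) ^ 2 / 3) := by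
    have e1 : ∑ i, ((W l (s i) - cc l * (s i) ^ 2) - (W l (d i) - cc l * (d i) ^ 2))
        = ∑ i, W l (s i) - ∑ i, W l (d i) - cc l * ∑ i, len (A i) * len (B i) := by
      rw [Finset.mul_sum, ← Finset.sum_sub_distrib, ← Finset.sum_sub_distrib]
      refine Finset.sum_congr rfl (fun i _ => ?_)
      rw [← hsd i]; ring
    rw [e1] at h1
    have e2 : 3 * (W l (2 * π / 3) - cc l * (2 * π / 3) ^ 2)
        = 3 * W l (2 * π / 3) - cc l * ((2 * π) ^ 2 / 3) := by ring
    rw [e2] at h1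
    linarith
  have hfin : ENNReal.ofReal (∑ i, W l (d i)) ≠ ∞ := ENNReal.ofReal_ne_top
  refine (ENNReal.add_le_add_iff_right hfin).mp ?_
  have hW3 : 0 ≤ 3 * W l (2 * π / 3) :=
    mul_nonneg (by norm_num) (W_nonneg l (by positivity))
  have hab : 0 ≤ cc l * ∑ i, len (A i) * len (B i) :=
    mul_nonneg (cc_pos l).le (Finset.sum_nonneg fun i _ =>
      mul_nonneg (len_nonneg _) (len_nonneg _))
  calc ENNReal.ofReal (3 * W l (2 * π / 3)) + ENNReal.ofReal (cc l * ∑ i, len (A i) * len (B i))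
        + ENNReal.ofReal (∑ i, W l (d i))
      = ENNReal.ofReal (3 * W l (2 * π / 3) + cc l * (∑ i, len (A i) * len (B i))
          + ∑ i, W l (d i)) := by
        rw [ENNReal.ofReal_add (add_nonneg hW3 hab) (Finset.sum_nonneg fun i _ => hW0 i),
          ENNReal.ofReal_add hW3 hab]
    _ ≤ ENNReal.ofReal (∑ i, W l (s i) + cc l * ((2 * π) ^ 2 / 3)) := ENNReal.ofReal_le_ofReal h2
    _ = ∑ i, ENNReal.ofReal (W l (s i)) + ENNReal.ofReal (cc l * ((2 * π) ^ 2 / 3)) := by
        rw [ENNReal.ofReal_add (Finset.sum_nonneg fun i _ => W_nonneg l (hs0 i))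
          (mul_nonneg (cc_pos l).le (by positivity)),
          ENNReal.ofReal_sum_of_nonneg (fun i _ => W_nonneg l (hs0 i))]
    _ ≤ ∑ i, (E2 l (A i) (B i) + ENNReal.ofReal (W l (d i)))
          + ENNReal.ofReal (cc l * ((2 * π) ^ 2 / 3)) := by
        refine add_le_add (Finset.sum_le_sum fun i _ => ?_) le_rfl
        exact riesz l hl (A i) (B i) (hA i) (hB i) (hPA i) (hPB i)
    _ = ∑ i, E2 l (A i) (B i) + ENNReal.ofReal (cc l * ((2 * π) ^ 2 / 3))
          + ENNReal.ofReal (∑ i, W l (d i)) := by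
        rw [Finset.sum_add_distrib, ENNReal.ofReal_sum_of_nonneg (fun i _ => hW0 i)]
        ring

end Pool.Agent.SSC3
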