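import Mathlib

/-!
Standard simplex conjecture, three parts in the plane, correlation in [-1,0].
Common definitions.
-/

set_option autoImplicit false
open MeasureTheory ProbabilityTheory Set Real
open scoped ENNReal

namespace Pool.Agent.SSC3

/-- The kernel `exp (- l cos t)` on the circle. -/
noncomputable def ker (l t : ℝ) : ℝ := Real.exp (-(l * Real.cos t))

/-- `W l x = 2 ∫_0^x (x-u) ker l u du`. -/
noncomputable def W (l x : ℝ) : ℝ := 2 * ∫ u in (0:ℝ)..x, (x - u) * ker l u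

/-- The constant `c(l) = (2 + cosh (l/2)) / 3`. -/
noncomputable def cc (l : ℝ) : ℝ := (2 + Real.cosh (l / 2)) / 3

/-- A set of angles is `2π`-periodic. -/
def Per (A : Set ℝ) : Prop := ∀ t, t + 2 * π ∈ A ↔ t ∈ A

/-- Length of a set of angles on the circle. -/
noncomputable def len (A : Set ℝ) : ℝ := (volume (A ∩ Ioo (-π) π)).toReal

/-- `∫_A ∫_B exp(-l cos(θ-φ)) dφ dθ` over one period. -/
noncomputable def E2 (l : ℝ) (A B : Set ℝ) : ℝ≥0∞ :=
  ∫⁻ θ in A ∩ Ioo (-π) π, ∫⁻ φ in B ∩ Ioo (-π) π, ENNReal.ofReal (ker l (θ - φ))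

/-- measure of the pairs `(θ,φ) ∈ A × B` whose distance on the circle is at most `x`. -/
noncomputable def V (A B : Set ℝ) (x : ℝ) : ℝ≥0∞ :=
  (volume.prod volume) {p : ℝ × ℝ | p.1 ∈ A ∩ Ioo (-π) π ∧ p.2 ∈ B ∩ Ioo (-π) π ∧
    Real.cos x ≤ Real.cos (p.1 - p.2)}

/-- `Φ(s,x) = s² - ((s-x)_+)² + ((s-(2π-x))_+)²`. -/
noncomputable def Phi (s x : ℝ) : ℝ := s ^ 2 - (max (s - x) 0) ^ 2 + (max (s - (2 * π - x)) 0) ^ 2

/-- The angular slice of a planar set at radius `r`. -/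
def slice (S : Set (Fin 2 → ℝ)) (r : ℝ) : Set ℝ := {θ | ![r * Real.cos θ, r * Real.sin θ] ∈ S}

/-- Standard Gaussian measure in the plane. -/
noncomputable def g2 : Measure (Fin 2 → ℝ) := Measure.pi (fun _ : Fin 2 => gaussianReal 0 1)

end Pool.Agent.SSC3
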