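import Pool.Agent.SSC3.Defs

set_option autoImplicit false
open MeasureTheory ProbabilityTheory Set Real
open scoped ENNReal NNReal

namespace Pool.Agent.SSC3

/-- The indicator function of a planar set in polar coordinates. -/
noncomputable def IA (A : Set (Fin 2 → ℝ)) (q : ℝ × ℝ) : ℝ≥0∞ :=
  A.indicator (fun _ => (1 : ℝ≥0∞)) ![q.1 * Real.cos q.2, q.1 * Real.sin q.2]

theorem measurable_pt : Measurable (fun q : ℝ × ℝ =>
    (![q.1 * Real.cos q.2, q.1 * Real.sin q.2] : Fin 2 → ℝ)) := by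
  apply measurable_pi_lambda
  intro i
  fin_cases i
  · simp; fun_prop
  · simp; fun_prop

@[fun_prop]
theorem measurable_IA {A : Set (Fin 2 → ℝ)} (hA : MeasurableSet A) : Measurable (IA A) :=
  (measurable_const.indicator hA).comp measurable_pt

theorem slice_meas (A : Set (Fin 2 → ℝ)) (hA : MeasurableSet A) (r : ℝ) :
    MeasurableSet (slice A r) := by
  have : Measurable (fun θ : ℝ => (![r * Real.cos θ, r * Real.sin θ] : Fin 2 → ℝ)) :=
    measurable_pt.comp (measurable_const.prodMk measurable_id)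
  exact this hA

theorem indicator_slice (A : Set (Fin 2 → ℝ)) (r : ℝ) (f : ℝ → ℝ≥0∞) (θ : ℝ) :
    (slice A r).indicator f θ = IA A (r, θ) * f θ := by
  unfold IA
  by_cases h : θ ∈ slice A r
  · rw [indicator_of_mem h, indicator_of_mem (show _ ∈ A from h), one_mul]
  · rw [indicator_of_notMem h, indicator_of_notMem (show _ ∉ A from h), zero_mul]

theorem E2_eq_polar (l : ℝ) (A B : Set (Fin 2 → ℝ)) (hA : MeasurableSet A) (hB : MeasurableSet B)
    (r s : ℝ) : E2 l (slice A r) (slice B s) =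
      ∫⁻ θ in Ioo (-π) π, ∫⁻ φ in Ioo (-π) π,
        IA A (r, θ) * (IA B (s, φ) * ENNReal.ofReal (ker l (θ - φ))) := by
  unfold E2
  rw [← setLIntegral_indicator (slice_meas A hA r)]
  refine lintegral_congr fun θ => ?_
  rw [indicator_slice, ← setLIntegral_indicator (slice_meas B hB s)]
  rw [lintegral_const_mul]
  · refine congrArg _ (lintegral_congr fun φ => ?_)
    rw [indicator_slice]
  · have := measurable_IA hB
    unfold ker
    fun_prop

/-- [P11] measurability of the angular energy. -/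
theorem measurable_E2 (m : ℝ) (A B : Set (Fin 2 → ℝ))
    (hA : MeasurableSet A) (hB : MeasurableSet B) :
    Measurable (fun p : ℝ × ℝ => E2 (m * p.1 * p.2) (slice A p.1) (slice B p.2)) := by
  have h1 : (fun p : ℝ × ℝ => E2 (m * p.1 * p.2) (slice A p.1) (slice B p.2)) =
      fun p : ℝ × ℝ => ∫⁻ θ in Ioo (-π) π, ∫⁻ φ in Ioo (-π) π,
        IA A (p.1, θ) * (IA B (p.2, φ) * ENNReal.ofReal (ker (m * p.1 * p.2) (θ - φ))) := by
    funext p
    exact E2_eq_polar _ A B hA hB _ _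
  rw [h1]
  have mA := measurable_IA hA
  have mB := measurable_IA hB
  have h2 : Measurable (fun q : (ℝ × ℝ) × ℝ => ∫⁻ φ in Ioo (-π) π,
        IA A (q.1.1, q.2) * (IA B (q.1.2, φ) *
          ENNReal.ofReal (ker (m * q.1.1 * q.1.2) (q.2 - φ)))) := by
    apply Measurable.lintegral_prod_right' (f := fun z : ((ℝ × ℝ) × ℝ) × ℝ =>
      IA A (z.1.1.1, z.1.2) * (IA B (z.1.1.2, z.2) *
          ENNReal.ofReal (ker (m * z.1.1.1 * z.1.1.2) (z.1.2 - z.2))))
    unfold ker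
    fun_prop
  exact Measurable.lintegral_prod_right' (f := fun q : (ℝ × ℝ) × ℝ => ∫⁻ φ in Ioo (-π) π,
        IA A (q.1.1, q.2) * (IA B (q.1.2, φ) *
          ENNReal.ofReal (ker (m * q.1.1 * q.1.2) (q.2 - φ)))) h2

/-- [P12] measurability of the angular length. -/
theorem measurable_len (A : Set (Fin 2 → ℝ)) (hA : MeasurableSet A) :
    Measurable (fun r : ℝ => len (slice A r)) := by
  unfold len
  apply ENNReal.measurable_toReal.comp
  have h : MeasurableSet {q : ℝ × ℝ |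
      (![q.1 * Real.cos q.2, q.1 * Real.sin q.2] : Fin 2 → ℝ) ∈ A ∧ q.2 ∈ Ioo (-π) π} :=
    (measurable_pt hA).inter (measurable_snd measurableSet_Ioo)
  exact measurable_measure_prodMk_left h

theorem continuous_W (x : ℝ) : Continuous (fun l => W l x) := by
  unfold W ker
  refine continuous_const.mul ?_
  apply intervalIntegral.continuous_parametric_intervalIntegral_of_continuous'
  fun_prop

theorem gauss_polar (f : (Fin 2 → ℝ) → ℝ≥0∞) (hf : Measurable f) (μ : Fin 2 → ℝ) (v : ℝ≥0)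
    (hv : v ≠ 0) :
    ∫⁻ y, f y ∂(Measure.pi (fun i : Fin 2 => gaussianReal (μ i) v)) =
      ∫⁻ r in Ioi (0:ℝ), ∫⁻ θ in Ioo (-π) π,
        ENNReal.ofReal r * ((gaussianPDF (μ 0) v (r * Real.cos θ) *
          gaussianPDF (μ 1) v (r * Real.sin θ)) * f ![r * Real.cos θ, r * Real.sin θ]) := by
  have h := measurePreserving_piFinTwo (fun i : Fin 2 => gaussianReal (μ i) v)
  set e := MeasurableEquiv.piFinTwo (fun _ : Fin 2 => ℝ) with he
  have h1 : ∫⁻ y, f y ∂(Measure.pi (fun i : Fin 2 => gaussianReal (μ i) v)) =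
      ∫⁻ z, f (e.symm z) ∂((gaussianReal (μ 0) v).prod (gaussianReal (μ 1) v)) := by
    rw [← h.map_eq, lintegral_map_equiv]
    simp
  rw [h1, gaussianReal_of_var_ne_zero _ hv, gaussianReal_of_var_ne_zero _ hv,
    prod_withDensity (measurable_gaussianPDF _ _) (measurable_gaussianPDF _ _)]
  have hes : Measurable fun z => f (e.symm z) := hf.comp e.symm.measurable
  rw [lintegral_withDensity_eq_lintegral_mul _ (by fun_prop) hes]
  have hsymm : ∀ a b : ℝ, e.symm (a, b) = ![a, b] := by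
    intro a b
    apply e.injective
    rw [MeasurableEquiv.apply_symm_apply]
    rfl
  rw [← Measure.volume_eq_prod, ← lintegral_comp_polarCoord_symm, polarCoord_target,
    Measure.volume_eq_prod, setLIntegral_prod]
  · refine lintegral_congr fun r => lintegral_congr fun θ => ?_
    rw [polarCoord_symm_apply, Pi.mul_apply, hsymm, smul_eq_mul]
  · apply Measurable.aemeasurable
    have hm : Measurable ((fun z : ℝ × ℝ => gaussianPDF (μ 0) v z.1 * gaussianPDF (μ 1) v z.2) *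
        fun z => f (e.symm z)) := by
      fun_prop
    have hp : Measurable (fun p : ℝ × ℝ => polarCoord.symm p) :=
      continuous_polarCoord_symm.measurable
    simp only [smul_eq_mul]
    have := hm.comp hp
    fun_prop

/-- the joint density in polar coordinates -/
theorem density (ρ : ℝ) (h1 : -1 < ρ) (h2 : ρ < 1) (v : ℝ≥0) (hv : (v : ℝ) = 1 - ρ ^ 2)
    (r s θ φ : ℝ) (hr : 0 < r) (hs : 0 < s) :
    ENNReal.ofReal r * (gaussianPDF 0 1 (r * Real.cos θ) * gaussianPDF 0 1 (r * Real.sin θ)) *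
      (ENNReal.ofReal s * (gaussianPDF (ρ * (r * Real.cos θ)) v (s * Real.cos φ) *
        gaussianPDF (ρ * (r * Real.sin θ)) v (s * Real.sin φ))) =
    ENNReal.ofReal (1 / (4 * π ^ 2 * (1 - ρ ^ 2))) *
      (ENNReal.ofReal (r * s * Real.exp (-(1 / (2 * (1 - ρ ^ 2)) * (r ^ 2 + s ^ 2)))) *
        ENNReal.ofReal (ker (-ρ / (1 - ρ ^ 2) * r * s) (θ - φ))) := by
  have hden : 0 < 1 - ρ ^ 2 := by nlinarith
  simp only [gaussianPDF]
  rw [← ENNReal.ofReal_mul (gaussianPDFReal_nonneg _ _ _), ← ENNReal.ofReal_mul hr.le,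
    ← ENNReal.ofReal_mul (gaussianPDFReal_nonneg _ _ _), ← ENNReal.ofReal_mul hs.le,
    ← ENNReal.ofReal_mul (by
      have := gaussianPDFReal_nonneg 0 1 (r * Real.cos θ)
      have := gaussianPDFReal_nonneg 0 1 (r * Real.sin θ)
      positivity),
    ← ENNReal.ofReal_mul (by positivity), ← ENNReal.ofReal_mul (by positivity)]
  congr 1
  simp only [gaussianPDFReal, ker, hv, NNReal.coe_one]
  have e1 : (√(2 * π * 1))⁻¹ * (√(2 * π * 1))⁻¹ = (2 * π)⁻¹ := by
    rw [← mul_inv, Real.mul_self_sqrt (by positivity), mul_one]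
  have e2 : (√(2 * π * (1 - ρ ^ 2)))⁻¹ * (√(2 * π * (1 - ρ ^ 2)))⁻¹ = (2 * π * (1 - ρ ^ 2))⁻¹ := by
    rw [← mul_inv, Real.mul_self_sqrt (by positivity)]
  have e3 : rexp (-(r * Real.cos θ - 0) ^ 2 / (2 * 1)) * rexp (-(r * Real.sin θ - 0) ^ 2 / (2 * 1)) *
      (rexp (-(s * Real.cos φ - ρ * (r * Real.cos θ)) ^ 2 / (2 * (1 - ρ ^ 2))) *
      rexp (-(s * Real.sin φ - ρ * (r * Real.sin θ)) ^ 2 / (2 * (1 - ρ ^ 2)))) =
      rexp (-(1 / (2 * (1 - ρ ^ 2)) * (r ^ 2 + s ^ 2))) *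
      rexp (-(-ρ / (1 - ρ ^ 2) * r * s * Real.cos (θ - φ))) := by
    rw [← Real.exp_add, ← Real.exp_add, ← Real.exp_add, ← Real.exp_add]
    congr 1
    rw [Real.cos_sub]
    have c1 := Real.sin_sq_add_cos_sq θ
    have c2 := Real.sin_sq_add_cos_sq φ
    have hne : (1 - ρ ^ 2) ≠ 0 := hden.ne'
    field_simp
    have s1 : Real.sin θ ^ 2 = 1 - Real.cos θ ^ 2 := by linarith
    have s2 : Real.sin φ ^ 2 = 1 - Real.cos φ ^ 2 := by linarith
    ring_nf
    simp only [s1, s2]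
    ring
  calc _ = r * s * (((√(2 * π * 1))⁻¹ * (√(2 * π * 1))⁻¹) *
        ((√(2 * π * (1 - ρ ^ 2)))⁻¹ * (√(2 * π * (1 - ρ ^ 2)))⁻¹)) *
        (rexp (-(r * Real.cos θ - 0) ^ 2 / (2 * 1)) * rexp (-(r * Real.sin θ - 0) ^ 2 / (2 * 1)) *
      (rexp (-(s * Real.cos φ - ρ * (r * Real.cos θ)) ^ 2 / (2 * (1 - ρ ^ 2))) *
      rexp (-(s * Real.sin φ - ρ * (r * Real.sin θ)) ^ 2 / (2 * (1 - ρ ^ 2))))) := by ring
    _ = _ := by
      rw [e1, e2, e3]
      field_simp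
      ring

theorem pi_shift (ρ : ℝ) (v : ℝ≥0) (hv : (v : ℝ) = 1 - ρ ^ 2) (x : Fin 2 → ℝ)
    (B : Set (Fin 2 → ℝ)) (hB : MeasurableSet B) :
    g2 {z | ρ • x + Real.sqrt (1 - ρ ^ 2) • z ∈ B} =
      Measure.pi (fun i : Fin 2 => gaussianReal (ρ * x i) v) B := by
  have h1 : ∀ i : Fin 2, (gaussianReal 0 1).map (fun t : ℝ => ρ * x i + Real.sqrt (1 - ρ ^ 2) * t) =
      gaussianReal (ρ * x i) v := by
    intro i
    have : (fun t : ℝ => ρ * x i + Real.sqrt (1 - ρ ^ 2) * t) =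
        (fun t => ρ * x i + t) ∘ (fun t => Real.sqrt (1 - ρ ^ 2) * t) := rfl
    rw [this, ← Measure.map_map (by fun_prop) (by fun_prop), gaussianReal_map_const_mul,
      gaussianReal_map_const_add]
    congr 1
    · ring
    · apply NNReal.eq
      rw [hv]
      have h0 : 0 ≤ 1 - ρ ^ 2 := by rw [← hv]; exact v.coe_nonneg
      simp [Real.sq_sqrt h0]
  simp_rw [← h1]
  rw [← Measure.pi_map_pi (fun i => by fun_prop), Measure.map_apply (by fun_prop) hB]
  rfl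

/-- the common integrand -/
noncomputable def TT (ρ : ℝ) (A B : Set (Fin 2 → ℝ)) (r s θ φ : ℝ) : ℝ≥0∞ :=
  ENNReal.ofReal (1 / (4 * π ^ 2 * (1 - ρ ^ 2))) *
    (ENNReal.ofReal (r * s * Real.exp (-(1 / (2 * (1 - ρ ^ 2)) * (r ^ 2 + s ^ 2)))) *
      (IA A (r, θ) * (IA B (s, φ) *
        ENNReal.ofReal (ker (-ρ / (1 - ρ ^ 2) * r * s) (θ - φ)))))

/-- [P6] polar coordinates for noise stability. -/
theorem polar (ρ : ℝ) (h1 : -1 < ρ) (h2 : ρ < 1) (A B : Set (Fin 2 → ℝ))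
    (hA : MeasurableSet A) (hB : MeasurableSet B) :
    (g2.prod g2) {p : (Fin 2 → ℝ) × (Fin 2 → ℝ) |
        p.1 ∈ A ∧ ρ • p.1 + Real.sqrt (1 - ρ ^ 2) • p.2 ∈ B}
      = ENNReal.ofReal (1 / (4 * π ^ 2 * (1 - ρ ^ 2))) *
        ∫⁻ p in Ioi (0:ℝ) ×ˢ Ioi (0:ℝ),
          ENNReal.ofReal (p.1 * p.2 * Real.exp (-(1 / (2 * (1 - ρ ^ 2)) * (p.1 ^ 2 + p.2 ^ 2)))) *
          E2 (-ρ / (1 - ρ ^ 2) * p.1 * p.2) (slice A p.1) (slice B p.2) := by
  have hden : 0 < 1 - ρ ^ 2 := by nlinarith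
  obtain ⟨v, hv⟩ : ∃ v : ℝ≥0, (v : ℝ) = 1 - ρ ^ 2 := ⟨⟨1 - ρ ^ 2, hden.le⟩, rfl⟩
  have hv0 : v ≠ 0 := by
    rintro rfl
    rw [NNReal.coe_zero] at hv
    linarith
  have mA := measurable_IA hA
  have mB := measurable_IA hB
  -- right-hand side
  have hR : ENNReal.ofReal (1 / (4 * π ^ 2 * (1 - ρ ^ 2))) *
        ∫⁻ p in Ioi (0:ℝ) ×ˢ Ioi (0:ℝ),
          ENNReal.ofReal (p.1 * p.2 * Real.exp (-(1 / (2 * (1 - ρ ^ 2)) * (p.1 ^ 2 + p.2 ^ 2)))) *
          E2 (-ρ / (1 - ρ ^ 2) * p.1 * p.2) (slice A p.1) (slice B p.2) =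
      ∫⁻ r in Ioi (0:ℝ), ∫⁻ s in Ioi (0:ℝ), ∫⁻ θ in Ioo (-π) π, ∫⁻ φ in Ioo (-π) π,
        TT ρ A B r s θ φ := by
    have mE := measurable_E2 (-ρ / (1 - ρ ^ 2)) A B hA hB
    have m1 : Measurable (fun p : ℝ × ℝ =>
        ENNReal.ofReal (p.1 * p.2 * Real.exp (-(1 / (2 * (1 - ρ ^ 2)) * (p.1 ^ 2 + p.2 ^ 2)))) *
          E2 (-ρ / (1 - ρ ^ 2) * p.1 * p.2) (slice A p.1) (slice B p.2)) := by
      refine Measurable.mul ?_ mE
      fun_prop
    rw [← lintegral_const_mul _ m1, Measure.volume_eq_prod,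
      setLIntegral_prod _ (m1.const_mul _).aemeasurable]
    refine lintegral_congr fun r => lintegral_congr fun s => ?_
    rw [E2_eq_polar _ A B hA hB]
    have m2 : Measurable (fun q : ℝ × ℝ => IA A (r, q.1) * (IA B (s, q.2) *
        ENNReal.ofReal (ker (-ρ / (1 - ρ ^ 2) * r * s) (q.1 - q.2)))) := by
      unfold ker
      fun_prop
    have m3 : Measurable (fun θ : ℝ => ∫⁻ φ in Ioo (-π) π, IA A (r, θ) * (IA B (s, φ) *
        ENNReal.ofReal (ker (-ρ / (1 - ρ ^ 2) * r * s) (θ - φ)))) :=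
      Measurable.lintegral_prod_right' (f := fun q : ℝ × ℝ => IA A (r, q.1) * (IA B (s, q.2) *
        ENNReal.ofReal (ker (-ρ / (1 - ρ ^ 2) * r * s) (q.1 - q.2)))) m2
    rw [← lintegral_const_mul _ m3, ← lintegral_const_mul _ (m3.const_mul _)]
    refine lintegral_congr fun θ => ?_
    have m4 : Measurable (fun φ : ℝ => IA A (r, θ) * (IA B (s, φ) *
        ENNReal.ofReal (ker (-ρ / (1 - ρ ^ 2) * r * s) (θ - φ)))) := by
      unfold ker
      fun_prop
    rw [← lintegral_const_mul _ m4, ← lintegral_const_mul _ (m4.const_mul _)]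
    rfl
  rw [hR]
  -- left-hand side
  have hS : MeasurableSet {p : (Fin 2 → ℝ) × (Fin 2 → ℝ) |
        p.1 ∈ A ∧ ρ • p.1 + Real.sqrt (1 - ρ ^ 2) • p.2 ∈ B} := by
    refine (measurable_fst hA).inter ?_
    have : Measurable (fun p : (Fin 2 → ℝ) × (Fin 2 → ℝ) =>
      ρ • p.1 + Real.sqrt (1 - ρ ^ 2) • p.2) := by fun_prop
    exact this hB
  have hsf : SFinite g2 := by
    unfold g2
    infer_instance
  rw [Measure.prod_apply hS]
  set H : (Fin 2 → ℝ) → ℝ≥0∞ := fun x => ∫⁻ s in Ioi (0:ℝ), ∫⁻ φ in Ioo (-π) π,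
        ENNReal.ofReal s * ((gaussianPDF (ρ * x 0) v (s * Real.cos φ) *
          gaussianPDF (ρ * x 1) v (s * Real.sin φ)) * IA B (s, φ)) with hH
  have hx : ∀ x : Fin 2 → ℝ, g2 (Prod.mk x ⁻¹' {p : (Fin 2 → ℝ) × (Fin 2 → ℝ) |
        p.1 ∈ A ∧ ρ • p.1 + Real.sqrt (1 - ρ ^ 2) • p.2 ∈ B}) =
      A.indicator (fun _ => (1 : ℝ≥0∞)) x * H x := by
    intro x
    by_cases hxA : x ∈ A
    · rw [indicator_of_mem hxA, one_mul]
      have e1 : (Prod.mk x ⁻¹' {p : (Fin 2 → ℝ) × (Fin 2 → ℝ) |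
        p.1 ∈ A ∧ ρ • p.1 + Real.sqrt (1 - ρ ^ 2) • p.2 ∈ B}) =
        {z | ρ • x + Real.sqrt (1 - ρ ^ 2) • z ∈ B} := by
        ext z
        simp [hxA]
      rw [e1, pi_shift ρ v hv x B hB, ← lintegral_indicator_one hB]
      exact gauss_polar (B.indicator 1) (measurable_one.indicator hB) (fun i => ρ * x i) v hv0
    · rw [indicator_of_notMem hxA, zero_mul]
      have e1 : (Prod.mk x ⁻¹' {p : (Fin 2 → ℝ) × (Fin 2 → ℝ) |
        p.1 ∈ A ∧ ρ • p.1 + Real.sqrt (1 - ρ ^ 2) • p.2 ∈ B}) = ∅ := by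
        ext z
        simp [hxA]
      rw [e1, measure_empty]
  simp_rw [hx]
  have mH : Measurable H := by
    have m1 : Measurable (fun q : ((Fin 2 → ℝ) × ℝ) × ℝ =>
        ENNReal.ofReal q.1.2 * ((gaussianPDF (ρ * q.1.1 0) v (q.1.2 * Real.cos q.2) *
          gaussianPDF (ρ * q.1.1 1) v (q.1.2 * Real.sin q.2)) * IA B (q.1.2, q.2))) := by
      unfold gaussianPDF gaussianPDFReal
      fun_prop
    have m2 : Measurable (fun q : (Fin 2 → ℝ) × ℝ => ∫⁻ φ in Ioo (-π) π,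
        ENNReal.ofReal q.2 * ((gaussianPDF (ρ * q.1 0) v (q.2 * Real.cos φ) *
          gaussianPDF (ρ * q.1 1) v (q.2 * Real.sin φ)) * IA B (q.2, φ))) :=
      Measurable.lintegral_prod_right' (f := fun q : ((Fin 2 → ℝ) × ℝ) × ℝ =>
        ENNReal.ofReal q.1.2 * ((gaussianPDF (ρ * q.1.1 0) v (q.1.2 * Real.cos q.2) *
          gaussianPDF (ρ * q.1.1 1) v (q.1.2 * Real.sin q.2)) * IA B (q.1.2, q.2))) m1
    exact Measurable.lintegral_prod_right' (f := fun q : (Fin 2 → ℝ) × ℝ => ∫⁻ φ in Ioo (-π) π,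
        ENNReal.ofReal q.2 * ((gaussianPDF (ρ * q.1 0) v (q.2 * Real.cos φ) *
          gaussianPDF (ρ * q.1 1) v (q.2 * Real.sin φ)) * IA B (q.2, φ))) m2
  have hL := gauss_polar (fun x => A.indicator (fun _ => (1 : ℝ≥0∞)) x * H x)
    ((measurable_const.indicator hA).mul mH) (fun _ => 0) 1 one_ne_zero
  refine Eq.trans hL ?_
  refine setLIntegral_congr_fun measurableSet_Ioi fun r hr => ?_
  rw [mem_Ioi] at hr
  have mT : Measurable (fun q : (ℝ × ℝ) × ℝ => TT ρ A B r q.1.1 q.1.2 q.2) := by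
    unfold TT ker
    fun_prop
  have e2 : ∀ θ : ℝ, ENNReal.ofReal r * ((gaussianPDF 0 1 (r * Real.cos θ) *
          gaussianPDF 0 1 (r * Real.sin θ)) *
          (A.indicator (fun _ => (1 : ℝ≥0∞)) ![r * Real.cos θ, r * Real.sin θ] *
            H ![r * Real.cos θ, r * Real.sin θ])) =
      ∫⁻ s in Ioi (0:ℝ), ∫⁻ φ in Ioo (-π) π, TT ρ A B r s θ φ := by
    intro θ
    have m1 : Measurable (fun q : ℝ × ℝ =>
        ENNReal.ofReal q.1 * ((gaussianPDF (ρ * (r * Real.cos θ)) v (q.1 * Real.cos q.2) *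
          gaussianPDF (ρ * (r * Real.sin θ)) v (q.1 * Real.sin q.2)) * IA B (q.1, q.2))) := by
      fun_prop
    have m2 : Measurable (fun s : ℝ => ∫⁻ φ in Ioo (-π) π,
        ENNReal.ofReal s * ((gaussianPDF (ρ * (r * Real.cos θ)) v (s * Real.cos φ) *
          gaussianPDF (ρ * (r * Real.sin θ)) v (s * Real.sin φ)) * IA B (s, φ))) :=
      Measurable.lintegral_prod_right' (f := fun q : ℝ × ℝ =>
        ENNReal.ofReal q.1 * ((gaussianPDF (ρ * (r * Real.cos θ)) v (q.1 * Real.cos q.2) *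
          gaussianPDF (ρ * (r * Real.sin θ)) v (q.1 * Real.sin q.2)) * IA B (q.1, q.2))) m1
    have e3 : H ![r * Real.cos θ, r * Real.sin θ] = ∫⁻ s in Ioi (0:ℝ), ∫⁻ φ in Ioo (-π) π,
        ENNReal.ofReal s * ((gaussianPDF (ρ * (r * Real.cos θ)) v (s * Real.cos φ) *
          gaussianPDF (ρ * (r * Real.sin θ)) v (s * Real.sin φ)) * IA B (s, φ)) := rfl
    have e4 : A.indicator (fun _ => (1 : ℝ≥0∞)) ![r * Real.cos θ, r * Real.sin θ] =
      IA A (r, θ) := rfl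
    rw [e3, e4, ← lintegral_const_mul _ m2, ← lintegral_const_mul _ (m2.const_mul _),
      ← lintegral_const_mul _ ((m2.const_mul _).const_mul _)]
    refine setLIntegral_congr_fun measurableSet_Ioi fun s hs => ?_
    rw [mem_Ioi] at hs
    have m3 : Measurable (fun φ : ℝ =>
        ENNReal.ofReal s * ((gaussianPDF (ρ * (r * Real.cos θ)) v (s * Real.cos φ) *
          gaussianPDF (ρ * (r * Real.sin θ)) v (s * Real.sin φ)) * IA B (s, φ))) := by
      fun_prop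
    rw [← lintegral_const_mul _ m3, ← lintegral_const_mul _ (m3.const_mul _),
      ← lintegral_const_mul _ ((m3.const_mul _).const_mul _)]
    refine lintegral_congr fun φ => ?_
    have hd := density ρ h1 h2 v hv r s θ φ hr hs
    unfold TT
    calc _ = (ENNReal.ofReal r * (gaussianPDF 0 1 (r * Real.cos θ) *
            gaussianPDF 0 1 (r * Real.sin θ)) *
        (ENNReal.ofReal s * (gaussianPDF (ρ * (r * Real.cos θ)) v (s * Real.cos φ) *
        gaussianPDF (ρ * (r * Real.sin θ)) v (s * Real.sin φ)))) * (IA A (r, θ) * IA B (s, φ)) := by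
          ring
      _ = _ := by
          rw [hd]
          ring
  have e5 : ∫⁻ θ in Ioo (-π) π, (ENNReal.ofReal r * ((gaussianPDF 0 1 (r * Real.cos θ) *
          gaussianPDF 0 1 (r * Real.sin θ)) *
          (A.indicator (fun _ => (1 : ℝ≥0∞)) ![r * Real.cos θ, r * Real.sin θ] *
            H ![r * Real.cos θ, r * Real.sin θ]))) =
      ∫⁻ θ in Ioo (-π) π, ∫⁻ s in Ioi (0:ℝ), ∫⁻ φ in Ioo (-π) π, TT ρ A B r s θ φ :=
    lintegral_congr e2
  refine Eq.trans e5 ?_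
  rw [lintegral_lintegral_swap]
  apply Measurable.aemeasurable
  have m5 : Measurable (fun q : (ℝ × ℝ) × ℝ => TT ρ A B r q.1.2 q.1.1 q.2) :=
    mT.comp ((measurable_fst.snd.prodMk measurable_fst.fst).prodMk measurable_snd)
  exact Measurable.lintegral_prod_right' (f := fun q : (ℝ × ℝ) × ℝ => TT ρ A B r q.1.2 q.1.1 q.2) m5

end Pool.Agent.SSC3
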