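import Pool.Agent.SSC3.OneD

set_option autoImplicit false
open MeasureTheory ProbabilityTheory Set Real
open scoped ENNReal

namespace Pool.Agent.SSC3

theorem exists_others (i : Fin 3) : ∃ j k : Fin 3, j ≠ i ∧ k ≠ i ∧ j ≠ k ∧
    ∀ m, m = i ∨ m = j ∨ m = k := by
  fin_cases i
  · exact ⟨1, 2, by decide, by decide, by decide, by decide⟩
  · exact ⟨0, 2, by decide, by decide, by decide, by decide⟩
  · exact ⟨0, 1, by decide, by decide, by decide, by decide⟩

/-- algebra of the simplex: a point of `B i` is in the closed cone of `a i`, or opposite. -/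
theorem cell_alg (B : Fin 3 → Set (Fin 2 → ℝ)) (a : Fin 3 → Fin 2 → ℝ)
    (ha : ∀ i, ∑ k, a i k * a i k = 1)
    (hab : ∀ i j, i ≠ j → ∑ k, a i k * a j k = -1 / ((3 : ℝ) - 1))
    (hB : ∀ x : Fin 2 → ℝ, ∃! i, x ∈ B i)
    (hBs : ∀ i, {x : Fin 2 → ℝ | ∀ j, j ≠ i → ∑ k, a j k * x k < ∑ k, a i k * x k} ⊆ B i)
    (i : Fin 3) (x : Fin 2 → ℝ) (hx : x ∈ B i) :
    (0 ≤ ∑ k, a i k * x k ∧ x 0 ^ 2 + x 1 ^ 2 ≤ 4 * (∑ k, a i k * x k) ^ 2) ∨
      (∑ k, a i k * x k) ^ 2 = x 0 ^ 2 + x 1 ^ 2 := by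
  obtain ⟨j, k, hj, hk, hjk, hall⟩ := exists_others i
  have hai := ha i
  have haj := ha j
  have hak := ha k
  have hij := hab i j hj.symm
  have hik := hab i k hk.symm
  have hjk' := hab j k hjk
  simp only [Fin.sum_univ_two] at hai haj hak hij hik hjk' ⊢
  norm_num at hij hik hjk'
  -- the sum of the vectors is zero
  have hs : (a i 0 + a j 0 + a k 0) ^ 2 + (a i 1 + a j 1 + a k 1) ^ 2 = 0 := by
    linarith
  have hs0 : a i 0 + a j 0 + a k 0 = 0 := by nlinarith [sq_nonneg (a i 0 + a j 0 + a k 0), sq_nonneg (a i 1 + a j 1 + a k 1)]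
  have hs1 : a i 1 + a j 1 + a k 1 = 0 := by nlinarith [sq_nonneg (a i 0 + a j 0 + a k 0), sq_nonneg (a i 1 + a j 1 + a k 1)]
  set u : ℝ := a i 0 * x 0 + a i 1 * x 1 with hu
  set v : ℝ := a j 0 * x 0 + a j 1 * x 1 with hv
  set w : ℝ := a k 0 * x 0 + a k 1 * x 1 with hw
  have huvw : u + v + w = 0 := by
    rw [hu, hv, hw]; linear_combination x 0 * hs0 + x 1 * hs1
  have hG : u ^ 2 + u * v + v ^ 2 = 3 / 4 * (x 0 ^ 2 + x 1 ^ 2) := by
    have key : (a i 0 * a i 0 + a i 1 * a i 1) * ((a j 0 * a j 0 + a j 1 * a j 1) *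
        (x 0 ^ 2 + x 1 ^ 2) - v * v) - (a i 0 * a j 0 + a i 1 * a j 1) *
        ((a i 0 * a j 0 + a i 1 * a j 1) * (x 0 ^ 2 + x 1 ^ 2) - v * u) +
        u * ((a i 0 * a j 0 + a i 1 * a j 1) * v - (a j 0 * a j 0 + a j 1 * a j 1) * u) = 0 := by
      rw [hu, hv]; ring
    rw [hai, haj, hij] at key
    linarith
  -- not in the open cells of `j`, `k`
  have hnj : u ≥ v ∨ w ≥ v := by
    by_contra hcon
    push Not at hcon
    have : x ∈ B j := by
      apply hBs j
      intro m hm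
      simp only [Fin.sum_univ_two]
      rcases hall m with rfl | rfl | rfl
      · exact hcon.1
      · exact absurd rfl hm
      · exact hcon.2
    exact hj ((hB x).unique this hx)
  have hnk : u ≥ w ∨ v ≥ w := by
    by_contra hcon
    push Not at hcon
    have : x ∈ B k := by
      apply hBs k
      intro m hm
      simp only [Fin.sum_univ_two]
      rcases hall m with rfl | rfl | rfl
      · exact hcon.1
      · exact hcon.2
      · exact absurd rfl hm
    exact hk ((hB x).unique this hx)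
  have main : (u ≥ v ∧ u ≥ w) ∨ v = w := by
    rcases hnj with h1 | h1 <;> rcases hnk with h2 | h2
    · exact Or.inl ⟨h1, h2⟩
    · exact Or.inl ⟨h1, by linarith⟩
    · exact Or.inl ⟨by linarith, h2⟩
    · exact Or.inr (le_antisymm h1 h2)
  rcases main with ⟨h1, h2⟩ | h1
  · left
    have hu0 : 0 ≤ u := by linarith
    refine ⟨hu0, ?_⟩
    nlinarith [mul_nonneg (sub_nonneg.2 h1) (sub_nonneg.2 h2)]
  · right
    have h3 : u = -2 * v := by linarith
    rw [h3] at hG ⊢
    linarith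

theorem exists_angle (b : Fin 2 → ℝ) (hb : ∑ k, b k * b k = 1) :
    ∃ ψ : ℝ, b 0 = Real.cos ψ ∧ b 1 = Real.sin ψ := by
  simp only [Fin.sum_univ_two] at hb
  have hz : ‖(⟨b 0, b 1⟩ : ℂ)‖ = 1 := by
    rw [Complex.norm_def, Complex.normSq_mk, hb, Real.sqrt_one]
  have hz0 : (⟨b 0, b 1⟩ : ℂ) ≠ 0 := by
    intro h
    rw [h] at hz
    simp at hz
  refine ⟨Complex.arg ⟨b 0, b 1⟩, ?_, ?_⟩
  · rw [Complex.cos_arg hz0, hz, div_one]
  · rw [Complex.sin_arg, hz, div_one]

theorem slice_subset (B : Fin 3 → Set (Fin 2 → ℝ)) (a : Fin 3 → Fin 2 → ℝ)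
    (ha : ∀ i, ∑ k, a i k * a i k = 1)
    (hab : ∀ i j, i ≠ j → ∑ k, a i k * a j k = -1 / ((3 : ℝ) - 1))
    (hB : ∀ x : Fin 2 → ℝ, ∃! i, x ∈ B i)
    (hBs : ∀ i, {x : Fin 2 → ℝ | ∀ j, j ≠ i → ∑ k, a j k * x k < ∑ k, a i k * x k} ⊆ B i)
    (i : Fin 3) (ψ : ℝ) (h0 : a i 0 = Real.cos ψ) (h1 : a i 1 = Real.sin ψ)
    (r : ℝ) (hr : 0 < r) (t : ℝ) (ht : t ∈ slice (B i) r) :
    1 / 2 ≤ Real.cos (t - ψ) ∨ Real.cos (t - ψ) = -1 := by
  have h := cell_alg B a ha hab hB hBs i _ ht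
  simp only [Fin.sum_univ_two, Matrix.cons_val_zero, Matrix.cons_val_one, h0, h1] at h
  have e1 : Real.cos ψ * (r * Real.cos t) + Real.sin ψ * (r * Real.sin t) =
      r * Real.cos (t - ψ) := by rw [Real.cos_sub]; ring
  have e2 : (r * Real.cos t) ^ 2 + (r * Real.sin t) ^ 2 = r ^ 2 := by
    have := Real.sin_sq_add_cos_sq t
    linear_combination r ^ 2 * this
  rw [e1, e2] at h
  set c := Real.cos (t - ψ) with hc
  rcases h with ⟨h2, h3⟩ | h2
  · left
    have hc0 : 0 ≤ c := by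
      by_contra hneg
      push Not at hneg
      nlinarith
    have h4 : (1 : ℝ) ≤ 4 * c ^ 2 := by
      have hr2 : 0 < r ^ 2 := by positivity
      have : r ^ 2 * 1 ≤ r ^ 2 * (4 * c ^ 2) := by nlinarith
      exact le_of_mul_le_mul_left this hr2
    nlinarith
  · have h4 : c ^ 2 = 1 := by
      have hr2 : r ^ 2 ≠ 0 := by positivity
      apply mul_left_cancel₀ hr2
      linarith
    have h5 : c = 1 ∨ c = -1 := by
      have h6 : (c - 1) * (c + 1) = 0 := by linarith
      rcases mul_eq_zero.1 h6 with h7 | h7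
      · left; linarith
      · right; linarith
    rcases h5 with h5 | h5
    · left; rw [h5]; norm_num
    · right; exact h5

theorem null_neg_one (ψ : ℝ) : volume {t : ℝ | Real.cos (t - ψ) = -1} = 0 := by
  have : {t : ℝ | Real.cos (t - ψ) = -1} ⊆ Set.range (fun k : ℤ => π + k * (2 * π) + ψ) := by
    intro t ht
    obtain ⟨k, hk⟩ := Real.cos_eq_neg_one_iff.1 ht
    exact ⟨k, by simp only; rw [hk]; ring⟩
  exact measure_mono_null this ((Set.countable_range _).measure_zero _)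

theorem arc_sub (ψ t : ℝ) (ht : t ∈ Ioc (ψ - π) (ψ - π + 2 * π)) (hc : 1 / 2 ≤ Real.cos (t - ψ)) :
    t ∈ Icc (ψ - π / 3) (ψ - π / 3 + 2 * π / 3) := by
  have h1 : |t - ψ| ≤ π := by
    rw [abs_le]; constructor <;> linarith [ht.1, ht.2]
  have h2 : |t - ψ| ≤ π / 3 := by
    by_contra hcon
    push Not at hcon
    have h3 : Real.cos |t - ψ| < Real.cos (π / 3) :=
      Real.cos_lt_cos_of_nonneg_of_le_pi (by positivity) h1 hcon
    rw [Real.cos_abs, Real.cos_pi_div_three] at h3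
    linarith
  rw [abs_le] at h2
  constructor <;> linarith [h2.1, h2.2]

theorem arc_le (f : ℝ → ℝ≥0∞) (hper : ∀ t, f (t + 2 * π) = f t) (ψ : ℝ)
    (S : Set ℝ) (hS : ∀ t ∈ S, 1 / 2 ≤ Real.cos (t - ψ) ∨ Real.cos (t - ψ) = -1) :
    ∫⁻ t in S ∩ Ioo (-π) π, f t ≤ ∫⁻ t in Icc (ψ - π / 3) (ψ - π / 3 + 2 * π / 3), f t := by
  set T : Set ℝ := {t | 1 / 2 ≤ Real.cos (t - ψ)} with hT
  have hTm : MeasurableSet T := measurableSet_le measurable_const (by fun_prop)
  have hTper : ∀ t, t + 2 * π ∈ T ↔ t ∈ T := by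
    intro t
    have : Real.cos (t + 2 * π - ψ) = Real.cos (t - ψ) := by
      rw [← Real.cos_add_two_pi (t - ψ)]; congr 1; ring
    simp only [hT, mem_ofPred_eq, this]
  have h1 : ∫⁻ t in S ∩ Ioo (-π) π, f t ≤ ∫⁻ t in T ∩ Ioc (-π) (-π + 2 * π), f t := by
    apply lintegral_mono_set'
    have hae : ∀ᵐ t : ℝ, ¬ Real.cos (t - ψ) = -1 := by
      rw [ae_iff]
      simp only [not_not]
      exact null_neg_one ψ
    filter_upwards [hae] with t ht
    intro hts
    refine ⟨?_, ?_⟩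
    · rcases hS t hts.1 with h | h
      · exact h
      · exact absurd h ht
    · exact ⟨hts.2.1, by have := hts.2.2; linarith⟩
  refine h1.trans ?_
  have hpi : (0 : ℝ) < 2 * π := by positivity
  have h2 : ∀ y : ℝ, ∫⁻ t in T ∩ Ioc y (y + 2 * π), f t =
      ∫⁻ t in Ioc y (y + 2 * π), T.indicator f t := by
    intro y
    rw [setLIntegral_indicator hTm]
  have h3 : ∫⁻ t in T ∩ Ioc (-π) (-π + 2 * π), f t =
      ∫⁻ t in T ∩ Ioc (ψ - π) (ψ - π + 2 * π), f t := by
    rw [h2, h2]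
    have hD1 := isAddFundamentalDomain_Ioc hpi (-π)
    have hD2 := isAddFundamentalDomain_Ioc hpi (ψ - π)
    apply hD1.setLIntegral_eq hD2
    have hperI : Function.Periodic (T.indicator f) (2 * π) := by
      intro t
      by_cases ht : t ∈ T
      · rw [indicator_of_mem ht, indicator_of_mem ((hTper t).2 ht), hper]
      · rw [indicator_of_notMem ht, indicator_of_notMem (fun h => ht ((hTper t).1 h))]
    exact hperI.map_vadd_zmultiples
  rw [h3]
  apply lintegral_mono_set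
  rintro t ⟨ht1, ht2⟩
  exact arc_sub ψ t ht2 ht1

theorem ker_continuous (l : ℝ) : Continuous (ker l) := by
  unfold ker
  fun_prop

theorem ker_neg (l t : ℝ) : ker l (-t) = ker l t := by
  simp [ker]

/-- the energy of an arc -/
theorem arc_energy (l α x : ℝ) (hx : 0 ≤ x) :
    ∫⁻ θ in Icc α (α + x), ∫⁻ φ in Icc α (α + x), ENNReal.ofReal (ker l (θ - φ)) =
      ENNReal.ofReal (W l x) := by
  have hk := ker_continuous l
  have hk0 : ∀ t, 0 ≤ ker l t := fun t => (Real.exp_pos _).le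
  set K : ℝ → ℝ := fun y => ∫ u in (0:ℝ)..y, ker l u with hK
  have hKd : ∀ y, HasDerivAt K (ker l y) y := by
    intro y
    exact intervalIntegral.integral_hasDerivAt_right (hk.intervalIntegrable _ _)
      (hk.stronglyMeasurableAtFilter _ _) hk.continuousAt
  have hKc : Continuous K := continuous_iff_continuousAt.2 fun y => (hKd y).continuousAt
  have hKneg : ∀ y, K (-y) = -K y := by
    intro y
    simp only [hK]
    have h1 := intervalIntegral.integral_comp_neg (f := ker l) (a := 0) (b := y)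
    simp only [ker_neg, neg_zero] at h1
    rw [h1, intervalIntegral.integral_symm]
  -- inner integral
  have hin : ∀ θ, ∫⁻ φ in Icc α (α + x), ENNReal.ofReal (ker l (θ - φ)) =
      ENNReal.ofReal (K (θ - α) + K (α + x - θ)) := by
    intro θ
    rw [← ofReal_integral_eq_lintegral_ofReal]
    · congr 1
      rw [integral_Icc_eq_integral_Ioc, ← intervalIntegral.integral_of_le (by linarith)]
      rw [intervalIntegral.integral_comp_sub_left (fun v => ker l v) θ]
      have h2 : ∫ v in (θ - (α + x))..(θ - α), ker l v = K (θ - α) - K (θ - (α + x)) := by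
        simp only [hK]
        rw [intervalIntegral.integral_interval_sub_left (hk.intervalIntegrable _ _)
          (hk.intervalIntegrable _ _)]
      rw [h2]
      have h3 : θ - (α + x) = -(α + x - θ) := by ring
      rw [h3, hKneg]
      ring
    · exact (by fun_prop : Continuous fun φ => ker l (θ - φ)).integrableOn_Icc
    · exact Filter.Eventually.of_forall fun φ => hk0 _
  simp only [hin]
  have hKnn : ∀ y, 0 ≤ y → 0 ≤ K y := fun y hy =>
    intervalIntegral.integral_nonneg hy (fun u _ => hk0 u)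
  rw [← ofReal_integral_eq_lintegral_ofReal]
  · congr 1
    rw [integral_Icc_eq_integral_Ioc, ← intervalIntegral.integral_of_le (by linarith)]
    rw [intervalIntegral.integral_add ((by fun_prop : Continuous fun θ => K (θ - α)).intervalIntegrable _ _)
      ((by fun_prop : Continuous fun θ => K (α + x - θ)).intervalIntegrable _ _)]
    rw [intervalIntegral.integral_comp_sub_right K α, intervalIntegral.integral_comp_sub_left K (α + x)]
    simp only [sub_self, add_sub_cancel_left]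
    have hparts : ∫ θ in (0:ℝ)..x, K θ = ∫ u in (0:ℝ)..x, (x - u) * ker l u := by
      have hd : ∀ u ∈ uIcc (0:ℝ) x, HasDerivAt (fun u => (x - u) * K u)
          ((x - u) * ker l u - K u) u := by
        intro u _
        have h1 : HasDerivAt (fun u : ℝ => x - u) (-1) u := by
          simpa using (hasDerivAt_id u).const_sub x
        have h2 := h1.mul (hKd u)
        refine h2.congr_deriv ?_
        ring
      have hint : IntervalIntegrable (fun u => (x - u) * ker l u - K u) volume 0 x := by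
        apply Continuous.intervalIntegrable
        fun_prop
      have h3 := intervalIntegral.integral_eq_sub_of_hasDerivAt hd hint
      rw [intervalIntegral.integral_sub ((by fun_prop : Continuous fun u => (x - u) * ker l u).intervalIntegrable _ _)
        (hKc.intervalIntegrable _ _)] at h3
      have h4 : K 0 = 0 := by simp [hK]
      rw [h4] at h3
      simp only [sub_self, zero_mul, mul_zero, sub_zero] at h3
      linarith
    rw [hparts, W]
    ring
  · exact (by fun_prop : Continuous fun θ => K (θ - α) + K (α + x - θ)).integrableOn_Icc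
  · refine (ae_restrict_iff' measurableSet_Icc).2 (Filter.Eventually.of_forall fun θ hθ => ?_)
    exact add_nonneg (hKnn _ (by linarith [hθ.1])) (hKnn _ (by linarith [hθ.2]))

theorem ker_per (l t : ℝ) : ker l (t + 2 * π) = ker l t := by
  simp [ker]

theorem E2_le (l ψ : ℝ) (S T : Set ℝ)
    (hS : ∀ t ∈ S, 1 / 2 ≤ Real.cos (t - ψ) ∨ Real.cos (t - ψ) = -1)
    (hT : ∀ t ∈ T, 1 / 2 ≤ Real.cos (t - ψ) ∨ Real.cos (t - ψ) = -1) :
    E2 l S T ≤ ENNReal.ofReal (W l (2 * π / 3)) := by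
  rw [← arc_energy l (ψ - π / 3) (2 * π / 3) (by positivity), E2]
  refine le_trans (lintegral_mono fun θ => arc_le (fun φ => ENNReal.ofReal (ker l (θ - φ)))
    ?_ ψ T hT) ?_
  · intro t
    rw [show θ - (t + 2 * π) = (θ - t) - 2 * π by ring, ← ker_per l (θ - t - 2 * π)]
    congr 2
    ring
  · refine arc_le (fun θ => ∫⁻ φ in Icc (ψ - π / 3) (ψ - π / 3 + 2 * π / 3),
      ENNReal.ofReal (ker l (θ - φ))) ?_ ψ S hS
    intro t
    refine lintegral_congr fun φ => ?_
    rw [show t + 2 * π - φ = (t - φ) + 2 * π by ring, ker_per]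

/-- [P9] the simplex cells: at most the arc value on every pair of circles. -/
theorem simplex_E2 (l : ℝ) (B : Fin 3 → Set (Fin 2 → ℝ)) (a : Fin 3 → Fin 2 → ℝ)
    (ha : ∀ i, ∑ k, a i k * a i k = 1)
    (hab : ∀ i j, i ≠ j → ∑ k, a i k * a j k = -1 / ((3 : ℝ) - 1))
    (hBm : ∀ i, MeasurableSet (B i))
    (hB : ∀ x : Fin 2 → ℝ, ∃! i, x ∈ B i)
    (hBs : ∀ i, {x : Fin 2 → ℝ | ∀ j, j ≠ i → ∑ k, a j k * x k < ∑ k, a i k * x k} ⊆ B i)
    (r s : ℝ) (hr : 0 < r) (hs : 0 < s) :
    ∑ i, E2 l (slice (B i) r) (slice (B i) s) ≤ ENNReal.ofReal (3 * W l (2 * π / 3)) := by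
  have h1 : ∀ i ∈ (Finset.univ : Finset (Fin 3)),
      E2 l (slice (B i) r) (slice (B i) s) ≤ ENNReal.ofReal (W l (2 * π / 3)) := by
    intro i _
    obtain ⟨ψ, h0, h1⟩ := exists_angle (a i) (ha i)
    exact E2_le l ψ _ _ (slice_subset B a ha hab hB hBs i ψ h0 h1 r hr)
      (slice_subset B a ha hab hB hBs i ψ h0 h1 s hs)
  refine (Finset.sum_le_sum h1).trans ?_
  rw [Finset.sum_const, Finset.card_univ, Fintype.card_fin, nsmul_eq_mul,
    ENNReal.ofReal_mul (by norm_num)]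
  simp

theorem g2_line_null (b : Fin 2 → ℝ) (hb : ∑ k, b k * b k = 1) :
    g2 {x : Fin 2 → ℝ | b 0 * x 1 - b 1 * x 0 = 0} = 0 := by
  simp only [Fin.sum_univ_two] at hb
  have hNA : NullSingletonClass (gaussianReal 0 1) := by
    apply nullSingletonClass_gaussianReal
    norm_num
  have hmp := measurePreserving_finTwoArrow (gaussianReal 0 1)
  set T : Set (ℝ × ℝ) := {p | b 0 * p.2 - b 1 * p.1 = 0} with hT
  have hTm : MeasurableSet T := measurableSet_eq_fun (by fun_prop) (by fun_prop)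
  have h1 : g2 {x : Fin 2 → ℝ | b 0 * x 1 - b 1 * x 0 = 0} =
      ((gaussianReal 0 1).prod (gaussianReal 0 1)) T := by
    rw [← hmp.measure_preimage hTm.nullMeasurableSet]
    rfl
  rw [h1]
  by_cases hb0 : b 0 = 0
  · have hb1 : b 1 ≠ 0 := by
      intro h
      rw [hb0, h] at hb
      norm_num at hb
    have h2 : T ⊆ {0} ×ˢ univ := by
      rintro ⟨p, q⟩ hp
      simp only [hT, mem_ofPred_eq, hb0, zero_mul, zero_sub, neg_eq_zero, mul_eq_zero] at hp
      exact ⟨hp.resolve_left hb1, mem_univ _⟩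
    refine measure_mono_null h2 ?_
    rw [Measure.prod_prod, measure_singleton, zero_mul]
  · rw [Measure.measure_prod_null hTm]
    refine Filter.Eventually.of_forall fun p => ?_
    have h2 : Prod.mk p ⁻¹' T ⊆ {b 1 * p / b 0} := by
      intro q hq
      simp only [hT, mem_preimage, mem_ofPred_eq] at hq
      rw [mem_singleton_iff, eq_div_iff hb0]
      linarith
    exact measure_mono_null h2 (measure_singleton _)

/-- [P10] correlation -1. -/
theorem simplex_neg_one (B : Fin 3 → Set (Fin 2 → ℝ)) (a : Fin 3 → Fin 2 → ℝ)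
    (ha : ∀ i, ∑ k, a i k * a i k = 1)
    (hab : ∀ i j, i ≠ j → ∑ k, a i k * a j k = -1 / ((3 : ℝ) - 1))
    (hBm : ∀ i, MeasurableSet (B i))
    (hB : ∀ x : Fin 2 → ℝ, ∃! i, x ∈ B i)
    (hBs : ∀ i, {x : Fin 2 → ℝ | ∀ j, j ≠ i → ∑ k, a j k * x k < ∑ k, a i k * x k} ⊆ B i) :
    ∑ i, (g2.prod g2) {p : (Fin 2 → ℝ) × (Fin 2 → ℝ) |
        p.1 ∈ B i ∧ (-1 : ℝ) • p.1 + Real.sqrt (1 - (-1 : ℝ) ^ 2) • p.2 ∈ B i} = 0 := by
  apply Finset.sum_eq_zero
  intro i _
  have : IsProbabilityMeasure g2 := by unfold g2; infer_instance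
  have hsub : {p : (Fin 2 → ℝ) × (Fin 2 → ℝ) |
        p.1 ∈ B i ∧ (-1 : ℝ) • p.1 + Real.sqrt (1 - (-1 : ℝ) ^ 2) • p.2 ∈ B i} ⊆
      {x : Fin 2 → ℝ | a i 0 * x 1 - a i 1 * x 0 = 0} ×ˢ univ := by
    rintro ⟨x, y⟩ ⟨h1, h2⟩
    refine ⟨?_, mem_univ _⟩
    simp only at h1 h2
    have e : (-1 : ℝ) • x + Real.sqrt (1 - (-1 : ℝ) ^ 2) • y = fun k => -x k := by
      funext k
      simp
    rw [e] at h2
    have c1 := cell_alg B a ha hab hB hBs i x h1
    have c2 := cell_alg B a ha hab hB hBs i _ h2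
    have hai := ha i
    simp only [Fin.sum_univ_two] at c1 c2 hai
    have key : (a i 0 * x 0 + a i 1 * x 1) ^ 2 + (a i 0 * x 1 - a i 1 * x 0) ^ 2 =
        x 0 ^ 2 + x 1 ^ 2 := by
      linear_combination (x 0 ^ 2 + x 1 ^ 2) * hai
    simp only [mem_ofPred_eq]
    have goal2 : (a i 0 * x 0 + a i 1 * x 1) ^ 2 = x 0 ^ 2 + x 1 ^ 2 := by
      rcases c1 with ⟨h3, h4⟩ | h3
      · rcases c2 with ⟨h5, h6⟩ | h5
        · have h7 : a i 0 * x 0 + a i 1 * x 1 = 0 := by linarith
          rw [h7] at h4 ⊢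
          have := sq_nonneg (x 0)
          have := sq_nonneg (x 1)
          linarith
        · linarith
      · exact h3
    have : (a i 0 * x 1 - a i 1 * x 0) ^ 2 = 0 := by linarith
    exact pow_eq_zero_iff (by norm_num) |>.1 this
  refine measure_mono_null hsub ?_
  rw [Measure.prod_prod, g2_line_null (a i) (ha i), zero_mul]

end Pool.Agent.SSC3
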