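import Pool.Agent.SSC3.Psd
import Pool.Agent.SSC3.Polar
import Pool.Agent.SSC3.Circle
import Pool.Agent.SSC3.Simplex

set_option autoImplicit false
open MeasureTheory ProbabilityTheory Set Real
open scoped ENNReal

namespace Pool.Agent.SSC3

theorem slice_measurable (A : Set (Fin 2 → ℝ)) (hA : MeasurableSet A) (r : ℝ) :
    MeasurableSet (slice A r) := by
  have : Measurable (fun θ : ℝ => (![r * Real.cos θ, r * Real.sin θ] : Fin 2 → ℝ)) := by
    apply measurable_pi_lambda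
    intro i
    fin_cases i
    · simp; fun_prop
    · simp; fun_prop
  exact this hA

theorem slice_per (A : Set (Fin 2 → ℝ)) (r : ℝ) : Per (slice A r) := by
  intro t
  simp [slice, Real.cos_add_two_pi, Real.sin_add_two_pi]

theorem len_sum (A : Fin 3 → Set (Fin 2 → ℝ)) (hAm : ∀ i, MeasurableSet (A i))
    (hA : ∀ x : Fin 2 → ℝ, ∃! i, x ∈ A i) (r : ℝ) : ∑ i, len (slice (A i) r) = 2 * π := by
  unfold len
  rw [← ENNReal.toReal_sum]
  · have h1 : ∑ i, volume (slice (A i) r ∩ Ioo (-π) π) = volume (⋃ i, slice (A i) r ∩ Ioo (-π) π) := by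
      rw [measure_iUnion]
      · rw [tsum_fintype]
      · intro i j hij
        rw [Function.onFun, Set.disjoint_left]
        rintro t ⟨hti, _⟩ ⟨htj, _⟩
        exact hij ((hA _).unique hti htj)
      · intro i
        exact (slice_measurable _ (hAm i) r).inter measurableSet_Ioo
    have h2 : (⋃ i, slice (A i) r ∩ Ioo (-π) π) = Ioo (-π) π := by
      ext t
      simp only [mem_iUnion, mem_inter_iff, exists_and_right, and_iff_right_iff_imp]
      intro _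
      obtain ⟨i, hi, _⟩ := hA ![r * Real.cos t, r * Real.sin t]
      exact ⟨i, hi⟩
    rw [h1, h2, Real.volume_Ioo, ENNReal.toReal_ofReal (by linarith [Real.pi_pos])]
    ring
  · intro i _
    exact ne_of_lt (lt_of_le_of_lt (measure_mono inter_subset_right) measure_Ioo_lt_top)

theorem main (ρ : ℝ) (h1 : -1 ≤ ρ) (h2 : ρ ≤ 0) (A B : Fin 3 → Set (Fin 2 → ℝ))
    (a : Fin 3 → Fin 2 → ℝ)
    (hAm : ∀ i, MeasurableSet (A i)) (hA : ∀ x : Fin 2 → ℝ, ∃! i, x ∈ A i)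
    (ha : ∀ i, ∑ k, a i k * a i k = 1)
    (hab : ∀ i j, i ≠ j → ∑ k, a i k * a j k = -1 / ((3 : ℝ) - 1))
    (hBm : ∀ i, MeasurableSet (B i))
    (hB : ∀ x : Fin 2 → ℝ, ∃! i, x ∈ B i)
    (hBs : ∀ i, {x : Fin 2 → ℝ | ∀ j, j ≠ i → ∑ k, a j k * x k < ∑ k, a i k * x k} ⊆ B i) :
    ∑ i, (g2.prod g2) {p : (Fin 2 → ℝ) × (Fin 2 → ℝ) |
        p.1 ∈ B i ∧ ρ • p.1 + Real.sqrt (1 - ρ ^ 2) • p.2 ∈ B i}
      ≤ ∑ i, (g2.prod g2) {p : (Fin 2 → ℝ) × (Fin 2 → ℝ) |
        p.1 ∈ A i ∧ ρ • p.1 + Real.sqrt (1 - ρ ^ 2) • p.2 ∈ A i} := by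
  rcases eq_or_lt_of_le h1 with h1 | h1
  · subst h1
    rw [simplex_neg_one B a ha hab hBm hB hBs]
    exact bot_le
  have hden : 0 < 1 - ρ ^ 2 := by nlinarith
  have hlt1 : ρ < 1 := by linarith
  simp_rw [polar ρ h1 hlt1 _ _ (hBm _) (hBm _), polar ρ h1 hlt1 _ _ (hAm _) (hAm _)]
  rw [← Finset.mul_sum, ← Finset.mul_sum]
  refine mul_le_mul' le_rfl ?_
  set m : ℝ := -ρ / (1 - ρ ^ 2) with hm
  set b : ℝ := 1 / (2 * (1 - ρ ^ 2)) with hb
  have hm0 : 0 ≤ m := div_nonneg (by linarith) hden.le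
  have hmb : m < 4 * b := by
    rw [hm, hb]
    rw [div_lt_iff₀ hden]
    have : 4 * (1 / (2 * (1 - ρ ^ 2))) * (1 - ρ ^ 2) = 2 := by field_simp; norm_num
    rw [this]; linarith
  set w : ℝ × ℝ → ℝ≥0∞ := fun p =>
    ENNReal.ofReal (p.1 * p.2 * Real.exp (-(b * (p.1 ^ 2 + p.2 ^ 2)))) with hw
  have hwm : Measurable w := by
    rw [hw]; fun_prop
  have hQ : MeasurableSet (Ioi (0:ℝ) ×ˢ Ioi (0:ℝ)) := measurableSet_Ioi.prod measurableSet_Ioi
  have hsumE : ∀ C : Fin 3 → Set (Fin 2 → ℝ), (∀ i, MeasurableSet (C i)) →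
      ∑ i, ∫⁻ p in Ioi (0:ℝ) ×ˢ Ioi (0:ℝ),
        ENNReal.ofReal (p.1 * p.2 * Real.exp (-(b * (p.1 ^ 2 + p.2 ^ 2)))) *
          E2 (m * p.1 * p.2) (slice (C i) p.1) (slice (C i) p.2)
      = ∫⁻ p in Ioi (0:ℝ) ×ˢ Ioi (0:ℝ), ∑ i, w p *
          E2 (m * p.1 * p.2) (slice (C i) p.1) (slice (C i) p.2) := by
    intro C hC
    rw [lintegral_finsetSum]
    intro i _
    exact hwm.mul (measurable_E2 m (C i) (C i) (hC i) (hC i))
  rw [hsumE B hBm, hsumE A hAm]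
  set X := ∫⁻ p in Ioi (0:ℝ) ×ˢ Ioi (0:ℝ),
        w p * ENNReal.ofReal (cc (m * p.1 * p.2) * ((2 * π) ^ 2 / 3)) with hX
  set Y := ∫⁻ p in Ioi (0:ℝ) ×ˢ Ioi (0:ℝ),
        w p * ENNReal.ofReal (cc (m * p.1 * p.2) * ∑ i, len (slice (A i) p.1) * len (slice (A i) p.2))
        with hY
  have hXY : X ≤ Y := psd b m hm0 (fun i r => len (slice (A i) r))
    (fun i => measurable_len (A i) (hAm i)) (fun i r => len_nonneg _)
    (fun r _ => len_sum A hAm hA r)
  have hXfin : X ≠ ∞ := psd_fin b m hm0 hmb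
  have hW : Measurable (fun p : ℝ × ℝ => w p * ENNReal.ofReal (3 * W (m * p.1 * p.2) (2 * π / 3))) := by
    refine hwm.mul ?_
    apply ENNReal.measurable_ofReal.comp
    apply Continuous.measurable
    exact continuous_const.mul ((continuous_W (2 * π / 3)).comp (by fun_prop))
  have hcc : Measurable (fun p : ℝ × ℝ => w p * ENNReal.ofReal (cc (m * p.1 * p.2) * ((2 * π) ^ 2 / 3))) := by
    refine hwm.mul ?_
    apply ENNReal.measurable_ofReal.comp
    unfold cc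
    fun_prop
  refine le_trans (b := ∫⁻ p in Ioi (0:ℝ) ×ˢ Ioi (0:ℝ),
    w p * ENNReal.ofReal (3 * W (m * p.1 * p.2) (2 * π / 3))) ?_ ?_
  · refine setLIntegral_mono hW ?_
    rintro ⟨r, s⟩ ⟨hr, hs⟩
    simp only [mem_Ioi] at hr hs
    rw [← Finset.mul_sum]
    refine mul_le_mul' le_rfl ?_
    exact simplex_E2 _ B a ha hab hBm hB hBs r s hr hs
  · refine (ENNReal.add_le_add_iff_right hXfin).mp ?_
    calc (∫⁻ p in Ioi (0:ℝ) ×ˢ Ioi (0:ℝ),
          w p * ENNReal.ofReal (3 * W (m * p.1 * p.2) (2 * π / 3))) + X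
        ≤ (∫⁻ p in Ioi (0:ℝ) ×ˢ Ioi (0:ℝ),
          w p * ENNReal.ofReal (3 * W (m * p.1 * p.2) (2 * π / 3))) + Y := by gcongr
      _ = ∫⁻ p in Ioi (0:ℝ) ×ˢ Ioi (0:ℝ),
          (w p * ENNReal.ofReal (3 * W (m * p.1 * p.2) (2 * π / 3)) +
          w p * ENNReal.ofReal (cc (m * p.1 * p.2) *
            ∑ i, len (slice (A i) p.1) * len (slice (A i) p.2))) := by
          rw [lintegral_add_left hW]
      _ ≤ ∫⁻ p in Ioi (0:ℝ) ×ˢ Ioi (0:ℝ),
          ((∑ i, w p * E2 (m * p.1 * p.2) (slice (A i) p.1) (slice (A i) p.2)) +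
          w p * ENNReal.ofReal (cc (m * p.1 * p.2) * ((2 * π) ^ 2 / 3))) := by
          refine setLIntegral_mono' hQ ?_
          rintro ⟨r, s⟩ ⟨hr, hs⟩
          simp only [mem_Ioi] at hr hs
          rw [← Finset.mul_sum, ← mul_add, ← mul_add]
          refine mul_le_mul' le_rfl ?_
          exact circle_ineq (m * r * s) (by positivity) (fun i => slice (A i) r)
            (fun i => slice (A i) s) (fun i => slice_measurable _ (hAm i) r)
            (fun i => slice_measurable _ (hAm i) s) (fun i => slice_per _ r)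
            (fun i => slice_per _ s) (len_sum A hAm hA r) (len_sum A hAm hA s)
      _ = (∫⁻ p in Ioi (0:ℝ) ×ˢ Ioi (0:ℝ),
          (∑ i, w p * E2 (m * p.1 * p.2) (slice (A i) p.1) (slice (A i) p.2))) + X := by
          rw [lintegral_add_right _ hcc]

end Pool.Agent.SSC3
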