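import Pool.Agent.SSC3.Defs

set_option autoImplicit false
open MeasureTheory ProbabilityTheory Set Real
open scoped ENNReal

namespace Pool.Agent.SSC3

namespace OneD

theorem continuous_ker (l : ℝ) : Continuous (ker l) := by
  unfold ker
  fun_prop

/-- antiderivative of the kernel -/
noncomputable def K (l x : ℝ) : ℝ := ∫ u in (0:ℝ)..x, ker l u

/-- antiderivative of the even part -/
noncomputable def Ce (l x : ℝ) : ℝ := ∫ u in (0:ℝ)..x, Real.cosh (l * Real.cos u)

/-- antiderivative of the odd part -/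
noncomputable def Se (l x : ℝ) : ℝ := ∫ u in (0:ℝ)..x, Real.sinh (l * Real.cos u)

noncomputable def G (l x : ℝ) : ℝ := K l x - cc l * x

noncomputable def g (l x : ℝ) : ℝ := W l x - cc l * x ^ 2

theorem hasDerivAt_K (l x : ℝ) : HasDerivAt (K l) (ker l x) x :=
  ((continuous_ker l).integral_hasStrictDerivAt 0 x).hasDerivAt

theorem hasDerivAt_Ce (l x : ℝ) : HasDerivAt (Ce l) (Real.cosh (l * Real.cos x)) x :=
  ((show Continuous fun u : ℝ => Real.cosh (l * Real.cos u) by fun_prop).integral_hasStrictDerivAt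
    0 x).hasDerivAt

theorem hasDerivAt_Se (l x : ℝ) : HasDerivAt (Se l) (Real.sinh (l * Real.cos x)) x :=
  ((show Continuous fun u : ℝ => Real.sinh (l * Real.cos u) by fun_prop).integral_hasStrictDerivAt
    0 x).hasDerivAt

theorem W_eq (l x : ℝ) : W l x = 2 * (x * K l x - ∫ u in (0:ℝ)..x, u * ker l u) := by
  unfold W K
  congr 1
  rw [← intervalIntegral.integral_const_mul, ← intervalIntegral.integral_sub]
  · congr 1
    funext u
    ring
  · exact (continuous_const.mul (continuous_ker l)).intervalIntegrable _ _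
  · exact (continuous_id.mul (continuous_ker l)).intervalIntegrable _ _

theorem hasDerivAt_W (l x : ℝ) : HasDerivAt (W l) (2 * K l x) x := by
  have h1 : HasDerivAt (fun x => ∫ u in (0:ℝ)..x, u * ker l u) (x * ker l x) x :=
    ((continuous_id.mul (continuous_ker l)).integral_hasStrictDerivAt 0 x).hasDerivAt
  have h2 := (((hasDerivAt_id x).mul (hasDerivAt_K l x)).sub h1).const_mul 2
  have h3 : W l = fun x => 2 * (x * K l x - ∫ u in (0:ℝ)..x, u * ker l u) := by
    funext y
    exact W_eq l y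
  rw [h3]
  refine HasDerivAt.congr_deriv h2 ?_
  simp

theorem hasDerivAt_G (l x : ℝ) : HasDerivAt (G l) (ker l x - cc l) x := by
  have h := (hasDerivAt_K l x).sub ((hasDerivAt_id x).const_mul (cc l))
  rw [mul_one] at h
  exact h

theorem hasDerivAt_g (l x : ℝ) : HasDerivAt (g l) (2 * G l x) x := by
  have h := (hasDerivAt_W l x).sub ((hasDerivAt_pow 2 x).const_mul (cc l))
  have h2 : 2 * G l x = 2 * K l x - cc l * ((2 : ℕ) * x ^ (2 - 1)) := by
    unfold G
    push_cast
    ring
  rw [h2]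
  exact h

theorem G_zero (l : ℝ) : G l 0 = 0 := by simp [G, K]

theorem g_zero (l : ℝ) : g l 0 = 0 := by simp [g, W]

theorem continuous_G (l : ℝ) : Continuous (G l) :=
  continuous_iff_continuousAt.2 fun x => (hasDerivAt_G l x).continuousAt

theorem continuous_g (l : ℝ) : Continuous (g l) :=
  continuous_iff_continuousAt.2 fun x => (hasDerivAt_g l x).continuousAt

theorem ker_refl (l x : ℝ) : ker l (2 * π - x) = ker l x := by
  unfold ker
  rw [Real.cos_two_pi_sub]

/-- reflection of `G` -/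
theorem G_refl (l x : ℝ) : G l (2 * π - x) = 2 * G l π - G l x := by
  have hF : ∀ x, HasDerivAt (fun x => G l (2 * π - x) + G l x) 0 x := by
    intro x
    have h1 := (hasDerivAt_G l (2 * π - x)).comp_const_sub (2 * π) x
    refine HasDerivAt.congr_deriv (h1.add (hasDerivAt_G l x)) ?_
    rw [ker_refl]
    ring
  have hd : Differentiable ℝ (fun x => G l (2 * π - x) + G l x) := fun x =>
    (hF x).differentiableAt
  have hc := is_const_of_deriv_eq_zero hd (fun x => (hF x).deriv) x π
  have : 2 * π - π = π := by ring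
  rw [this] at hc
  linarith

/-- reflection of `Se` -/
theorem Se_refl (l x : ℝ) : Se l (π - x) = Se l x := by
  have hF : ∀ x, HasDerivAt (fun x => Se l (π - x) - Se l x) 0 x := by
    intro x
    have h1 := (hasDerivAt_Se l (π - x)).comp_const_sub π x
    refine HasDerivAt.congr_deriv (h1.sub (hasDerivAt_Se l x)) ?_
    rw [Real.cos_pi_sub, mul_neg, Real.sinh_neg]
    ring
  have hd : Differentiable ℝ (fun x => Se l (π - x) - Se l x) := fun x =>
    (hF x).differentiableAt
  have hc := is_const_of_deriv_eq_zero hd (fun x => (hF x).deriv) x (π / 2)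
  have : π - π / 2 = π / 2 := by ring
  rw [this] at hc
  linarith

/-- reflection of `Ce` -/
theorem Ce_refl (l x : ℝ) : Ce l (π - x) = 2 * Ce l (π / 2) - Ce l x := by
  have hF : ∀ x, HasDerivAt (fun x => Ce l (π - x) + Ce l x) 0 x := by
    intro x
    have h1 := (hasDerivAt_Ce l (π - x)).comp_const_sub π x
    refine HasDerivAt.congr_deriv (h1.add (hasDerivAt_Ce l x)) ?_
    rw [Real.cos_pi_sub, mul_neg, Real.cosh_neg]
    ring
  have hd : Differentiable ℝ (fun x => Ce l (π - x) + Ce l x) := fun x =>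
    (hF x).differentiableAt
  have hc := is_const_of_deriv_eq_zero hd (fun x => (hF x).deriv) x (π / 2)
  have : π - π / 2 = π / 2 := by ring
  rw [this] at hc
  linarith

theorem K_eq (l x : ℝ) : K l x = Ce l x - Se l x := by
  unfold K Ce Se
  rw [← intervalIntegral.integral_sub]
  · congr 1
    funext u
    unfold ker
    rw [Real.cosh_sub_sinh]
  · exact (show Continuous fun u : ℝ => Real.cosh (l * Real.cos u) by fun_prop).intervalIntegrable
      _ _
  · exact (show Continuous fun u : ℝ => Real.sinh (l * Real.cos u) by fun_prop).intervalIntegrable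
      _ _

theorem cos_two_pi_div_three : Real.cos (2 * π / 3) = -(1 / 2) := by
  have : 2 * π / 3 = π - π / 3 := by ring
  rw [this, Real.cos_pi_sub, Real.cos_pi_div_three]

theorem abs_cos_ge {m : ℝ} (h1 : 2 * π / 3 ≤ m) (h2 : m ≤ π) : Real.cos m ≤ -(1 / 2) := by
  rw [← cos_two_pi_div_three]
  exact Real.cos_le_cos_of_nonneg_of_le_pi (by positivity) h2 h1

/-- (F1) -/
theorem F1 {l : ℝ} (hl : 0 ≤ l) {u : ℝ} (h1 : 2 * π / 3 ≤ u) (h2 : u ≤ 4 * π / 3) :
    0 ≤ ker l u - cc l := by
  have hc : Real.cos u ≤ -(1 / 2) := by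
    rcases le_total u π with h | h
    · exact abs_cos_ge h1 h
    · rw [← Real.cos_two_pi_sub]
      exact abs_cos_ge (by linarith) (by linarith)
  have h3 : l / 2 ≤ -(l * Real.cos u) := by nlinarith
  have h4 : Real.exp (l / 2) ≤ ker l u := Real.exp_le_exp.2 h3
  have h5 : 1 ≤ Real.exp (l / 2) := Real.one_le_exp (by linarith)
  have h6 : Real.cosh (l / 2) ≤ Real.exp (l / 2) := by
    rw [Real.cosh_eq]
    have : Real.exp (-(l / 2)) ≤ Real.exp (l / 2) := Real.exp_le_exp.2 (by linarith)
    linarith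
  unfold cc
  linarith

/-- (F2) -/
theorem F2 {l : ℝ} (hl : 0 ≤ l) {m : ℝ} (h1 : 2 * π / 3 ≤ m) (h2 : m ≤ π) :
    G l (2 * π - 2 * m) ≤ G l m := by
  have hpi := Real.pi_pos
  -- even part
  have hJ : MonotoneOn (fun m => Ce l m - Ce l (2 * π - 2 * m) - cc l * (3 * m - 2 * π))
      (Icc (2 * π / 3) π) := by
    have hd : ∀ x, HasDerivAt (fun m => Ce l m - Ce l (2 * π - 2 * m) - cc l * (3 * m - 2 * π))
        (Real.cosh (l * Real.cos x) + 2 * Real.cosh (l * Real.cos (2 * π - 2 * x)) - 3 * cc l)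
        x := by
      intro x
      have e1 := (hasDerivAt_Ce l (2 * π - 2 * x)).comp x
        (((hasDerivAt_id x).const_mul 2).const_sub (2 * π))
      have e2 := ((hasDerivAt_Ce l x).sub e1).sub
        ((((hasDerivAt_id x).const_mul 3).sub_const (2 * π)).const_mul (cc l))
      refine HasDerivAt.congr_deriv e2 ?_
      ring
    refine monotoneOn_of_deriv_nonneg (convex_Icc _ _) ?_ ?_ ?_
    · exact fun x _ => (hd x).continuousAt.continuousWithinAt
    · exact fun x _ => (hd x).differentiableAt.differentiableWithinAt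
    · intro x hx
      rw [interior_Icc] at hx
      rw [(hd x).deriv]
      have e1 : Real.cosh (l / 2) ≤ Real.cosh (l * Real.cos x) := by
        rw [Real.cosh_le_cosh, abs_of_nonneg (by linarith), abs_mul, abs_of_nonneg hl]
        have e3 := abs_cos_ge hx.1.le hx.2.le
        rw [abs_of_nonpos (by linarith)]
        nlinarith
      have e2 := Real.one_le_cosh (l * Real.cos (2 * π - 2 * x))
      unfold cc
      linarith
  have h3 := hJ (left_mem_Icc.2 (by linarith)) ⟨h1, h2⟩ h1
  simp only at h3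
  have h4 : 2 * π - 2 * (2 * π / 3) = 2 * π / 3 := by ring
  rw [h4] at h3
  have h5 : (3 * (2 * π / 3) - 2 * π) = 0 := by ring
  rw [h5] at h3
  -- odd part
  have hS : AntitoneOn (Se l) (Icc (π / 2) π) := by
    refine antitoneOn_of_deriv_nonpos (convex_Icc _ _) ?_ ?_ ?_
    · exact fun x _ => (hasDerivAt_Se l x).continuousAt.continuousWithinAt
    · exact fun x _ => (hasDerivAt_Se l x).differentiableAt.differentiableWithinAt
    · intro x hx
      rw [interior_Icc] at hx
      rw [(hasDerivAt_Se l x).deriv, Real.sinh_nonpos_iff]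
      have := Real.cos_nonpos_of_pi_div_two_le_of_le hx.1.le (by linarith [hx.2])
      nlinarith
  have hodd : Se l m ≤ Se l (2 * π - 2 * m) := by
    rcases le_total (π / 2) (2 * π - 2 * m) with h | h
    · exact hS ⟨h, by linarith⟩ ⟨by linarith, h2⟩ (by linarith)
    · rw [← Se_refl l (2 * π - 2 * m)]
      exact hS ⟨by linarith, by linarith⟩ ⟨by linarith, h2⟩ (by linarith)
  unfold G
  rw [K_eq, K_eq]
  nlinarith

theorem cosh_chord {l t : ℝ} (ht0 : 0 ≤ t) (ht : t ≤ 1 / 2) :
    Real.cosh (l * t) ≤ 1 + 2 * t * (Real.cosh (l / 2) - 1) := by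
  have hconv := convexOn_exp.2
  have e1 := hconv (mem_univ (0 : ℝ)) (mem_univ (l / 2)) (show (0:ℝ) ≤ 1 - 2 * t by linarith)
    (show (0:ℝ) ≤ 2 * t by linarith) (by ring)
  have e2 := hconv (mem_univ (0 : ℝ)) (mem_univ (-(l / 2))) (show (0:ℝ) ≤ 1 - 2 * t by linarith)
    (show (0:ℝ) ≤ 2 * t by linarith) (by ring)
  simp only [smul_eq_mul, mul_zero, zero_add, Real.exp_zero, mul_one] at e1 e2
  rw [show 2 * t * (l / 2) = l * t by ring] at e1
  rw [show 2 * t * -(l / 2) = -(l * t) by ring] at e2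
  rw [Real.cosh_eq, Real.cosh_eq]
  nlinarith

/-- (F3) -/
theorem F3 {l : ℝ} (hl : 0 ≤ l) : G l (2 * π / 3) ≤ 0 := by
  have hpi := Real.pi_pos
  -- first part
  have h1 : K l (π / 3) ≤ π / 3 := by
    have h := intervalIntegral.integral_mono_on (a := 0) (b := π / 3) (by positivity)
      ((continuous_ker l).intervalIntegrable (μ := volume) _ _)
      ((continuous_const (y := (1:ℝ))).intervalIntegrable (μ := volume) _ _) (fun u hu => ?_)
    · rw [intervalIntegral.integral_const, sub_zero, smul_eq_mul, mul_one] at h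
      exact h
    · unfold ker
      rw [Real.exp_le_one_iff]
      have := Real.cos_nonneg_of_neg_pi_div_two_le_of_le (x := u) (by linarith [hu.1])
        (by linarith [hu.2])
      nlinarith
  -- second part
  have h2 : Ce l (2 * π / 3) - Ce l (π / 3) = 2 * (Ce l (π / 2) - Ce l (π / 3)) := by
    have := Ce_refl l (π / 3)
    rw [show π - π / 3 = 2 * π / 3 by ring] at this
    linarith
  have h3 : Ce l (π / 2) - Ce l (π / 3)
      ≤ π / 6 + 2 * (Real.cosh (l / 2) - 1) * (1 - Real.sqrt 3 / 2) := by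
    have hcc : Continuous fun u : ℝ => Real.cosh (l * Real.cos u) := by fun_prop
    have hcd : Continuous fun u : ℝ => 1 + 2 * (Real.cosh (l / 2) - 1) * Real.cos u := by fun_prop
    have h := intervalIntegral.integral_mono_on (a := π / 3) (b := π / 2) (by linarith)
      (hcc.intervalIntegrable (μ := volume) _ _)
      (hcd.intervalIntegrable (μ := volume) _ _) (fun u hu => ?_)
    · have e1 : ∫ u in (π / 3)..(π / 2), Real.cosh (l * Real.cos u)
          = Ce l (π / 2) - Ce l (π / 3) := by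
        unfold Ce
        rw [intervalIntegral.integral_interval_sub_left] <;> exact hcc.intervalIntegrable _ _
      have e2 : ∫ u in (π / 3)..(π / 2), (1 + 2 * (Real.cosh (l / 2) - 1) * Real.cos u)
          = π / 6 + 2 * (Real.cosh (l / 2) - 1) * (1 - Real.sqrt 3 / 2) := by
        have e3 : Continuous fun u : ℝ => 2 * (Real.cosh (l / 2) - 1) * Real.cos u := by fun_prop
        rw [intervalIntegral.integral_add (continuous_const.intervalIntegrable _ _)
          (e3.intervalIntegrable _ _),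
          intervalIntegral.integral_const_mul, integral_cos, Real.sin_pi_div_two,
          Real.sin_pi_div_three, intervalIntegral.integral_const, smul_eq_mul]
        ring
      rw [e1, e2] at h
      exact h
    · have e1 : 0 ≤ Real.cos u := Real.cos_nonneg_of_neg_pi_div_two_le_of_le
        (by linarith [hu.1]) hu.2
      have e2 : Real.cos u ≤ 1 / 2 := by
        rw [← Real.cos_pi_div_three]
        exact Real.cos_le_cos_of_nonneg_of_le_pi (by positivity) (by linarith [hu.2]) hu.1
      have := cosh_chord (l := l) e1 e2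
      nlinarith
  have h4 : Se l (2 * π / 3) = Se l (π / 3) := by
    rw [← Se_refl l (π / 3)]
    congr 1
    ring
  have h5 : K l (2 * π / 3) = K l (π / 3) + (Ce l (2 * π / 3) - Ce l (π / 3)) := by
    rw [K_eq, K_eq, h4]
    ring
  have h6 : 1.73 ≤ Real.sqrt 3 := by
    rw [show (1.73 : ℝ) = Real.sqrt (1.73 ^ 2) by rw [Real.sqrt_sq (by norm_num)]]
    exact Real.sqrt_le_sqrt (by norm_num)
  have h7 := Real.one_le_cosh (l / 2)
  have h8 := Real.pi_gt_three
  unfold G cc
  rw [h5, h2]
  nlinarith [mul_nonneg (sub_nonneg.2 h7) (sub_nonneg.2 h6),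
    mul_nonneg (sub_nonneg.2 h7) (sub_nonneg.2 h8.le)]

theorem convex_G {l : ℝ} (hl : 0 ≤ l) : ConvexOn ℝ (Icc 0 π) (G l) := by
  refine MonotoneOn.convexOn_of_deriv (convex_Icc _ _) (continuous_G l).continuousOn
    (fun x _ => (hasDerivAt_G l x).differentiableAt.differentiableWithinAt) ?_
  rw [interior_Icc]
  intro x hx y hy hxy
  rw [(hasDerivAt_G l x).deriv, (hasDerivAt_G l y).deriv]
  have := Real.cos_le_cos_of_nonneg_of_le_pi hx.1.le hy.2.le hxy
  have h2 : ker l x ≤ ker l y := Real.exp_le_exp.2 (by nlinarith)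
  linarith

theorem mono_G {l : ℝ} (hl : 0 ≤ l) : MonotoneOn (G l) (Icc (2 * π / 3) (4 * π / 3)) := by
  refine monotoneOn_of_deriv_nonneg (convex_Icc _ _) (continuous_G l).continuousOn
    (fun x _ => (hasDerivAt_G l x).differentiableAt.differentiableWithinAt) ?_
  intro x hx
  rw [interior_Icc] at hx
  rw [(hasDerivAt_G l x).deriv]
  exact F1 hl hx.1.le hx.2.le

theorem G_pi_nonneg {l : ℝ} (hl : 0 ≤ l) : 0 ≤ G l π := by
  have h := F2 hl (m := π) (by linarith [Real.pi_pos]) le_rfl
  rw [sub_self, G_zero] at h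
  exact h

theorem exists_xm {l : ℝ} (hl : 0 ≤ l) : ∃ xm ∈ Icc (2 * π / 3) π, G l xm = 0 := by
  have hpi := Real.pi_pos
  have h := intermediate_value_Icc (show 2 * π / 3 ≤ π by linarith) (continuous_G l).continuousOn
  exact h ⟨F3 hl, G_pi_nonneg hl⟩

theorem G_neg {l : ℝ} (hl : 0 ≤ l) {xm x : ℝ} (hxm : xm ∈ Icc (2 * π / 3) π) (h0 : G l xm = 0)
    (h1 : 0 ≤ x) (h2 : x ≤ xm) : G l x ≤ 0 := by
  have hpi := Real.pi_pos
  have h := (convex_G hl).le_max_of_mem_Icc (x := 0) (y := xm) ⟨le_rfl, hpi.le⟩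
    ⟨by linarith, hxm.2⟩ ⟨h1, h2⟩
  rw [G_zero, h0, max_self] at h
  exact h

theorem G_pos {l : ℝ} (hl : 0 ≤ l) {xm x : ℝ} (hxm : xm ∈ Icc (2 * π / 3) π) (h0 : G l xm = 0)
    (h1 : xm ≤ x) (h2 : x ≤ 2 * π) : 0 ≤ G l x := by
  have hpi := Real.pi_pos
  rcases le_total x π with h | h
  · rw [← h0]
    exact mono_G hl ⟨hxm.1, by linarith [hxm.2]⟩ ⟨by linarith [hxm.1], by linarith⟩ h1
  · have e1 : G l (2 * π - x) ≤ G l π := by
      have h := (convex_G hl).le_max_of_mem_Icc (x := 0) (y := π) ⟨le_rfl, hpi.le⟩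
        ⟨hpi.le, le_rfl⟩ (z := 2 * π - x) ⟨by linarith, by linarith⟩
      rwa [G_zero, max_eq_right (G_pi_nonneg hl)] at h
    have e2 := G_refl l (2 * π - x)
    rw [show 2 * π - (2 * π - x) = x by ring] at e2
    have e3 := G_pi_nonneg hl
    linarith

theorem anti_g {l : ℝ} (hl : 0 ≤ l) {xm : ℝ} (hxm : xm ∈ Icc (2 * π / 3) π)
    (h0 : G l xm = 0) : AntitoneOn (g l) (Icc 0 xm) := by
  refine antitoneOn_of_deriv_nonpos (convex_Icc _ _) (continuous_g l).continuousOn
    (fun x _ => (hasDerivAt_g l x).differentiableAt.differentiableWithinAt) ?_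
  intro x hx
  rw [interior_Icc] at hx
  rw [(hasDerivAt_g l x).deriv]
  have := G_neg hl hxm h0 hx.1.le hx.2.le
  linarith

theorem mono_g {l : ℝ} (hl : 0 ≤ l) {xm : ℝ} (hxm : xm ∈ Icc (2 * π / 3) π)
    (h0 : G l xm = 0) : MonotoneOn (g l) (Icc xm (2 * π)) := by
  refine monotoneOn_of_deriv_nonneg (convex_Icc _ _) (continuous_g l).continuousOn
    (fun x _ => (hasDerivAt_g l x).differentiableAt.differentiableWithinAt) ?_
  intro x hx
  rw [interior_Icc] at hx
  rw [(hasDerivAt_g l x).deriv]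
  have := G_pos hl hxm h0 hx.1.le hx.2.le
  linarith

theorem phi_mono {l : ℝ} (hl : 0 ≤ l) :
    MonotoneOn (fun m => g l (2 * π - 2 * m) + 2 * g l m) (Icc (2 * π / 3) π) := by
  have hd : ∀ x, HasDerivAt (fun m => g l (2 * π - 2 * m) + 2 * g l m)
      (4 * (G l x - G l (2 * π - 2 * x))) x := by
    intro x
    have e1 := (hasDerivAt_g l (2 * π - 2 * x)).comp x
      (((hasDerivAt_id x).const_mul 2).const_sub (2 * π))
    have e2 := e1.add ((hasDerivAt_g l x).const_mul 2)
    refine HasDerivAt.congr_deriv e2 ?_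
    ring
  refine monotoneOn_of_deriv_nonneg (convex_Icc _ _)
    (fun x _ => (hd x).continuousAt.continuousWithinAt)
    (fun x _ => (hd x).differentiableAt.differentiableWithinAt) ?_
  intro x hx
  rw [interior_Icc] at hx
  rw [(hd x).deriv]
  have := F2 hl hx.1.le hx.2.le
  linarith

theorem phi_ge {l : ℝ} (hl : 0 ≤ l) {m : ℝ} (h1 : 2 * π / 3 ≤ m) (h2 : m ≤ π) :
    3 * g l (2 * π / 3) ≤ g l (2 * π - 2 * m) + 2 * g l m := by
  have hpi := Real.pi_pos
  have h := phi_mono hl (left_mem_Icc.2 (by linarith)) ⟨h1, h2⟩ h1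
  have e : 2 * π - 2 * (2 * π / 3) = 2 * π / 3 := by ring
  simp only [e] at h
  linarith

/-- balanced pairs -/
theorem pair_ge {l : ℝ} (hl : 0 ≤ l) {m t : ℝ} (h1 : 2 * π / 3 ≤ m) (h2 : m ≤ π) (ht0 : 0 ≤ t)
    (ht : t ≤ 3 * m - 2 * π) : 2 * g l m ≤ g l (m + t) + g l (m - t) := by
  have hpi := Real.pi_pos
  obtain ⟨xm, hxm, h0⟩ := exists_xm hl
  have hGm : G l m ≤ G l π := mono_G hl ⟨h1, by linarith⟩ ⟨by linarith, by linarith⟩ h2
  have hlow : ∀ t, 0 ≤ t → t ≤ 3 * m - 2 * π → G l (m - t) ≤ G l m := by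
    intro t ht0 ht
    have h := (convex_G hl).le_max_of_mem_Icc (x := 2 * π - 2 * m) (y := m)
      ⟨by linarith, by linarith⟩ ⟨by linarith, h2⟩ (z := m - t) ⟨by linarith, by linarith⟩
    rwa [max_eq_right (F2 hl h1 h2)] at h
  have hhigh : ∀ t, 0 ≤ t → t ≤ 3 * m - 2 * π → G l m ≤ G l (m + t) := by
    intro t ht0 ht
    rcases le_total (m + t) (4 * π / 3) with h | h
    · exact mono_G hl ⟨h1, by linarith⟩ ⟨by linarith, h⟩ (by linarith)
    · have e1 : G l (2 * π - (m + t)) ≤ 0 := G_neg hl hxm h0 (by linarith) (by linarith [hxm.1])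
      have e2 := G_refl l (2 * π - (m + t))
      rw [show 2 * π - (2 * π - (m + t)) = m + t by ring] at e2
      have e3 := G_pi_nonneg hl
      linarith
  have hd : ∀ x, HasDerivAt (fun t => g l (m + t) + g l (m - t))
      (2 * (G l (m + x) - G l (m - x))) x := by
    intro x
    have e1 := (hasDerivAt_g l (m + x)).comp_const_add m x
    have e2 := (hasDerivAt_g l (m - x)).comp_const_sub m x
    refine HasDerivAt.congr_deriv (e1.add e2) ?_
    ring
  have hm : MonotoneOn (fun t => g l (m + t) + g l (m - t)) (Icc 0 (3 * m - 2 * π)) := by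
    refine monotoneOn_of_deriv_nonneg (convex_Icc _ _)
      (fun x _ => (hd x).continuousAt.continuousWithinAt)
      (fun x _ => (hd x).differentiableAt.differentiableWithinAt) ?_
    intro x hx
    rw [interior_Icc] at hx
    rw [(hd x).deriv]
    have e1 := hlow x hx.1.le hx.2.le
    have e2 := hhigh x hx.1.le hx.2.le
    linarith
  have h := hm (left_mem_Icc.2 (by linarith)) ⟨ht0, ht⟩ ht0
  simp only [add_zero, sub_zero] at h
  linarith

theorem sum_sorted {l : ℝ} (hl : 0 ≤ l) {x y z : ℝ} (hx : 0 ≤ x) (hxy : x ≤ y) (hyz : y ≤ z)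
    (hs : x + y + z = 2 * π) : 3 * g l (2 * π / 3) ≤ g l x + g l y + g l z := by
  have h1 := pair_ge hl (m := (y + z) / 2) (t := (z - y) / 2) (by linarith) (by linarith)
    (by linarith) (by linarith)
  rw [show (y + z) / 2 + (z - y) / 2 = z by ring, show (y + z) / 2 - (z - y) / 2 = y by ring] at h1
  have h2 := phi_ge hl (m := (y + z) / 2) (by linarith) (by linarith)
  rw [show 2 * π - 2 * ((y + z) / 2) = x by linarith] at h2
  linarith

theorem sum_ge {l : ℝ} (hl : 0 ≤ l) {x y z : ℝ} (hx : 0 ≤ x) (hy : 0 ≤ y) (hz : 0 ≤ z)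
    (hs : x + y + z = 2 * π) : 3 * g l (2 * π / 3) ≤ g l x + g l y + g l z := by
  rcases le_total x y with h1 | h1 <;> rcases le_total y z with h2 | h2 <;>
    rcases le_total x z with h3 | h3
  · exact sum_sorted hl hx h1 h2 hs
  · exact sum_sorted hl hx h1 h2 hs
  · have := sum_sorted hl hx h3 h2 (by linarith)
    linarith
  · have := sum_sorted hl hz h3 h1 (by linarith)
    linarith
  · have := sum_sorted hl hy h1 h3 (by linarith)
    linarith
  · have := sum_sorted hl hy h2 h3 (by linarith)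
    linarith
  · have := sum_sorted hl hz h2 h1 (by linarith)
    linarith
  · have := sum_sorted hl hz h2 h1 (by linarith)
    linarith

end OneD

open OneD in
/-- [P4] the one-dimensional inequality. -/
theorem oneD (l : ℝ) (hl : 0 ≤ l) (s d : Fin 3 → ℝ) (hd : ∀ i, 0 ≤ d i) (hds : ∀ i, d i ≤ s i)
    (hs : ∑ i, s i = 2 * π) :
    3 * (W l (2 * π / 3) - cc l * (2 * π / 3) ^ 2)
      ≤ ∑ i, ((W l (s i) - cc l * (s i) ^ 2) - (W l (d i) - cc l * (d i) ^ 2)) := by
  have hpi := Real.pi_pos
  obtain ⟨xm, hxm, h0⟩ := exists_xm hl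
  have hsi : ∀ i, 0 ≤ s i := fun i => (hd i).trans (hds i)
  have hs2 : ∀ i, s i ≤ 2 * π := by
    intro i
    rw [← hs]
    exact Finset.single_le_sum (fun j _ => hsi j) (Finset.mem_univ i)
  have hmin : ∀ x, 0 ≤ x → x ≤ 2 * π → g l xm ≤ g l x := by
    intro x hx hx2
    rcases le_total x xm with h | h
    · exact anti_g hl hxm h0 ⟨hx, h⟩ ⟨by linarith [hxm.1], le_rfl⟩ h
    · exact mono_g hl hxm h0 ⟨le_rfl, by linarith [hxm.2]⟩ ⟨h, hx2⟩ h
  have hneg : ∀ x, 0 ≤ x → x ≤ xm → g l x ≤ 0 := by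
    intro x hx hx2
    rw [← g_zero l]
    exact anti_g hl hxm h0 ⟨le_rfl, by linarith [hxm.1]⟩ ⟨hx, hx2⟩ hx
  have hgm : g l xm ≤ 0 := hneg xm (by linarith [hxm.1]) le_rfl
  have hterm0 : ∀ i, 0 < g l (d i) → 0 ≤ g l (s i) - g l (d i) := by
    intro i hi
    have h1 : xm ≤ d i := by
      by_contra hcon
      exact absurd (hneg (d i) (hd i) (not_le.1 hcon).le) (not_le.2 hi)
    have h2 := mono_g hl hxm h0 ⟨h1, (hds i).trans (hs2 i)⟩ ⟨h1.trans (hds i), hs2 i⟩ (hds i)
    linarith
  have hterm : ∀ i, g l xm ≤ g l (s i) - g l (d i) := by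
    intro i
    rcases le_or_gt (g l (d i)) 0 with h | h
    · have := hmin (s i) (hsi i) (hs2 i)
      linarith
    · have := hterm0 i h
      linarith
  have key : 3 * g l (2 * π / 3) ≤ ∑ i, (g l (s i) - g l (d i)) := by
    by_cases hall : ∀ i, g l (d i) ≤ 0
    · have h1 : 3 * g l (2 * π / 3) ≤ ∑ i, g l (s i) := by
        rw [Fin.sum_univ_three]
        rw [Fin.sum_univ_three] at hs
        exact sum_ge hl (hsi 0) (hsi 1) (hsi 2) hs
      refine h1.trans (Finset.sum_le_sum fun i _ => ?_)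
      have := hall i
      linarith
    · push Not at hall
      obtain ⟨i, hi⟩ := hall
      have h1 := hterm0 i hi
      have h2 : 2 * g l xm ≤ ∑ i, (g l (s i) - g l (d i)) := by
        rw [Fin.sum_univ_three]
        have t0 := hterm 0
        have t1 := hterm 1
        have t2 := hterm 2
        fin_cases i
        · simp only [Fin.zero_eta] at h1
          linarith
        · simp only [Fin.mk_one] at h1
          linarith
        · simp only [Fin.reduceFinMk] at h1
          linarith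
      have h3 := phi_ge hl hxm.1 hxm.2
      have h4 := hneg (2 * π - 2 * xm) (by linarith [hxm.2]) (by linarith [hxm.1])
      linarith
  exact key

end Pool.Agent.SSC3
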