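import Pool.Agent.SSC3.Defs

set_option autoImplicit false
open MeasureTheory ProbabilityTheory Set Real
open scoped ENNReal

namespace Pool.Agent.SSC3

namespace PollardAux

noncomputable def ind (A : Set ℝ) : ℝ → ℝ := A.indicator (fun _ => (1:ℝ))

noncomputable def F (A : Set ℝ) (x : ℝ) : ℝ := ∫ u in (0:ℝ)..x, ind A u

theorem ind_ii (A : Set ℝ) (hA : MeasurableSet A) (u v : ℝ) :
    IntervalIntegrable (ind A) volume u v := by
  have h : IntervalIntegrable (fun _ : ℝ => (1:ℝ)) volume u v := intervalIntegrable_const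
  rw [intervalIntegrable_iff] at h ⊢
  exact h.indicator hA

theorem ind_per (A : Set ℝ) (hP : Per A) : Function.Periodic (ind A) (2 * π) := by
  intro x
  unfold ind
  by_cases h : x ∈ A
  · rw [indicator_of_mem h, indicator_of_mem ((hP x).2 h)]
  · rw [indicator_of_notMem h, indicator_of_notMem (fun h' => h ((hP x).1 h'))]

theorem F_sub_int (A : Set ℝ) (hA : MeasurableSet A) (x y : ℝ) :
    F A y - F A x = ∫ u in x..y, ind A u := by
  unfold F
  rw [intervalIntegral.integral_interval_sub_left (ind_ii A hA _ _) (ind_ii A hA _ _)]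

theorem F_sub (A : Set ℝ) (hA : MeasurableSet A) (x y : ℝ) (hxy : x ≤ y) :
    F A y - F A x = (volume (A ∩ Icc x y)).toReal := by
  rw [F_sub_int A hA, intervalIntegral.integral_of_le hxy, ← integral_Icc_eq_integral_Ioc]
  unfold ind
  rw [setIntegral_indicator hA, setIntegral_const]
  simp [Measure.real, inter_comm]

theorem F_mono (A : Set ℝ) (hA : MeasurableSet A) : Monotone (F A) := by
  intro x y hxy
  have := F_sub A hA x y hxy
  have h2 : 0 ≤ (volume (A ∩ Icc x y)).toReal := ENNReal.toReal_nonneg
  linarith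

theorem F_lip (A : Set ℝ) (hA : MeasurableSet A) (x y : ℝ) (hxy : x ≤ y) :
    F A y - F A x ≤ y - x := by
  rw [F_sub A hA x y hxy]
  have h1 : volume (A ∩ Icc x y) ≤ ENNReal.ofReal (y - x) := by
    rw [← Real.volume_Icc]
    exact measure_mono inter_subset_right
  have := ENNReal.toReal_mono ENNReal.ofReal_ne_top h1
  rwa [ENNReal.toReal_ofReal (by linarith)] at this

theorem F_cont (A : Set ℝ) (hA : MeasurableSet A) : Continuous (F A) := by
  unfold F
  exact intervalIntegral.continuous_primitive (fun u v => ind_ii A hA u v) 0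

theorem len_eq (A : Set ℝ) (hA : MeasurableSet A) : len A = ∫ u in (-π)..π, ind A u := by
  rw [intervalIntegral.integral_of_le (by linarith [Real.pi_pos]), integral_Ioc_eq_integral_Ioo]
  unfold ind
  rw [setIntegral_indicator hA, setIntegral_const]
  simp [Measure.real, inter_comm, len]

theorem F_per (A : Set ℝ) (hA : MeasurableSet A) (hP : Per A) (x : ℝ) :
    F A (x + 2 * π) = F A x + len A := by
  have h := F_sub_int A hA x (x + 2 * π)
  have h2 := (ind_per A hP).intervalIntegral_add_eq x (-π)
  have h3 : (-π + 2 * π) = π := by ring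
  rw [h3] at h2
  rw [h2, ← len_eq A hA] at h
  linarith

theorem len_nonneg (A : Set ℝ) : 0 ≤ len A := ENNReal.toReal_nonneg

theorem len_le (A : Set ℝ) : len A ≤ 2 * π := by
  unfold len
  have h1 : volume (A ∩ Ioo (-π) π) ≤ ENNReal.ofReal (2 * π) := by
    have : (2 * π) = π - (-π) := by ring
    rw [this, ← Real.volume_Ioo]
    exact measure_mono inter_subset_right
  have := ENNReal.toReal_mono ENNReal.ofReal_ne_top h1
  rwa [ENNReal.toReal_ofReal (by linarith [Real.pi_pos])] at this

/-- the function `Θ`. -/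
noncomputable def Th (A : Set ℝ) (t c : ℝ) : ℝ :=
  ∫ x in (0:ℝ)..(2 * π), max (t - (F A (x + c) - F A x)) 0

theorem Th_shift (A : Set ℝ) (hA : MeasurableSet A) (hP : Per A) (t c e : ℝ) :
    Th A t c = ∫ y in (0:ℝ)..(2 * π), max (t - (F A (y + (c + e)) - F A (y + e))) 0 := by
  set f : ℝ → ℝ := fun x => max (t - (F A (x + c) - F A x)) 0 with hf
  have hfp : Function.Periodic f (2 * π) := by
    intro x
    simp only [hf]
    have h1 : x + 2 * π + c = (x + c) + 2 * π := by ring
    rw [h1, F_per A hA hP, F_per A hA hP]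
    congr 1
    ring
  have h1 : (∫ y in (0:ℝ)..(2 * π), max (t - (F A (y + (c + e)) - F A (y + e))) 0)
      = ∫ y in (0:ℝ)..(2 * π), f (y + e) := by
    congr 1
    ext y
    simp only [hf]
    have : y + (c + e) = y + e + c := by ring
    rw [this]
  rw [h1, intervalIntegral.integral_comp_add_right]
  have h2 := hfp.intervalIntegral_add_eq 0 e
  unfold Th
  rw [zero_add] at h2 ⊢
  rw [h2]
  congr 1
  ring

theorem Th_dec (A : Set ℝ) (hA : MeasurableSet A) (hP : Per A) (t c c' h : ℝ) (hcc : c ≤ c')
    (hh : 0 ≤ h) : Th A t c' - Th A t (c' + h) ≤ Th A t c - Th A t (c + h) := by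
  have hF := F_cont A hA
  have key : ∀ e, Th A t e - Th A t (e + h) =
      ∫ y in (0:ℝ)..(2 * π), (max (t - (F A y - F A (y - e))) 0 -
        max (t - (F A (y + h) - F A (y - e))) 0) := by
    intro e
    rw [Th_shift A hA hP t e (-e), Th_shift A hA hP t (e + h) (-e), ← intervalIntegral.integral_sub]
    · congr 1
      ext y
      have h1 : y + (e + -e) = y := by ring
      have h2 : y + (e + h + -e) = y + h := by ring
      have h3 : y + -e = y - e := by ring
      rw [h1, h2, h3]
    · apply Continuous.intervalIntegrable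
      fun_prop
    · apply Continuous.intervalIntegrable
      fun_prop
  rw [key, key]
  apply intervalIntegral.integral_mono_on
  · linarith [Real.pi_pos]
  · apply Continuous.intervalIntegrable
    fun_prop
  · apply Continuous.intervalIntegrable
    fun_prop
  · intro y _
    have h1 : F A (y - c') ≤ F A (y - c) := F_mono A hA (by linarith)
    have h2 : F A y ≤ F A (y + h) := F_mono A hA (by linarith)
    rcases max_cases (t - (F A y - F A (y - c'))) 0 with ⟨e1, e2⟩ | ⟨e1, e2⟩ <;>
    rcases max_cases (t - (F A (y + h) - F A (y - c'))) 0 with ⟨e3, e4⟩ | ⟨e3, e4⟩ <;>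
    rcases max_cases (t - (F A y - F A (y - c))) 0 with ⟨e5, e6⟩ | ⟨e5, e6⟩ <;>
    rcases max_cases (t - (F A (y + h) - F A (y - c))) 0 with ⟨e7, e8⟩ | ⟨e7, e8⟩ <;>
    rw [e1, e3, e5, e7] <;> linarith

theorem Th_anti (A : Set ℝ) (hA : MeasurableSet A) (t : ℝ) : Antitone (Th A t) := by
  intro c c' hcc
  have hF := F_cont A hA
  unfold Th
  apply intervalIntegral.integral_mono_on
  · linarith [Real.pi_pos]
  · apply Continuous.intervalIntegrable
    fun_prop
  · apply Continuous.intervalIntegrable
    fun_prop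
  · intro y _
    have h1 : F A (y + c) ≤ F A (y + c') := F_mono A hA (by linarith)
    exact max_le_max (by linarith) le_rfl

theorem int_diff (A : Set ℝ) (hA : MeasurableSet A) (hP : Per A) (c : ℝ) :
    ∫ x in (0:ℝ)..(2 * π), (F A (x + c) - F A x) = c * len A := by
  have hF := F_cont A hA
  rw [intervalIntegral.integral_sub (by apply Continuous.intervalIntegrable; fun_prop)
    (by apply Continuous.intervalIntegrable; fun_prop)]
  rw [intervalIntegral.integral_comp_add_right (fun x => F A x) c]
  have i1 : ∀ u v, IntervalIntegrable (F A) volume u v := fun u v => hF.intervalIntegrable u v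
  have h1 : (∫ x in (0 + c)..(2 * π + c), F A x) - ∫ x in (0:ℝ)..(2 * π), F A x
      = (∫ x in (2 * π)..(2 * π + c), F A x) - ∫ x in (0:ℝ)..(0 + c), F A x := by
    rw [← intervalIntegral.integral_add_adjacent_intervals (i1 (0 + c) (2 * π)) (i1 (2 * π) (2 * π + c)),
      ← intervalIntegral.integral_add_adjacent_intervals (i1 0 (0 + c)) (i1 (0 + c) (2 * π))]
    ring
  rw [h1]
  have h2 : (∫ x in (2 * π)..(2 * π + c), F A x) = ∫ x in (0:ℝ)..(0 + c), (F A x + len A) := by
    have : (∫ x in (0:ℝ)..(0 + c), (F A x + len A)) = ∫ x in (0:ℝ)..(0 + c), F A (x + 2 * π) := by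
      congr 1
      ext x
      rw [F_per A hA hP]
    rw [this, intervalIntegral.integral_comp_add_right (fun x => F A x) (2 * π)]
    congr 1 <;> ring
  rw [h2, intervalIntegral.integral_add (i1 _ _) intervalIntegrable_const]
  simp

theorem Th_t (A : Set ℝ) (hA : MeasurableSet A) (hP : Per A) (t : ℝ) (ht : 0 ≤ t) :
    Th A t t = t * (2 * π - len A) := by
  have hF := F_cont A hA
  unfold Th
  have h1 : (∫ x in (0:ℝ)..(2 * π), max (t - (F A (x + t) - F A x)) 0) =
      ∫ x in (0:ℝ)..(2 * π), (t - (F A (x + t) - F A x)) := by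
    congr 1
    ext x
    apply max_eq_left
    have := F_lip A hA x (x + t) (by linarith)
    linarith
  rw [h1, intervalIntegral.integral_sub intervalIntegrable_const
    (by apply Continuous.intervalIntegrable; fun_prop), int_diff A hA hP]
  simp
  ring

theorem Th_end (A : Set ℝ) (hA : MeasurableSet A) (hP : Per A) (t : ℝ) (hta : t ≤ len A) :
    Th A t (2 * π - len A + t) = 0 := by
  unfold Th
  have h1 : (∫ x in (0:ℝ)..(2 * π), max (t - (F A (x + (2 * π - len A + t)) - F A x)) 0) =
      ∫ x in (0:ℝ)..(2 * π), (0:ℝ) := by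
    congr 1
    ext x
    apply max_eq_right
    have h2 := F_lip A hA (x + (2 * π - len A + t)) (x + 2 * π) (by linarith)
    rw [F_per A hA hP] at h2
    linarith
  rw [h1]
  simp

theorem seq_conv (u : ℕ → ℝ) (hu : ∀ j, u (j + 1) - u (j + 2) ≤ u j - u (j + 1)) (N : ℕ) :
    ∀ j, j ≤ N → (N : ℝ) * u j ≤ ((N : ℝ) - j) * u 0 + j * u N := by
  -- decrements antitone
  have hd : ∀ j k, j ≤ k → u k - u (k + 1) ≤ u j - u (j + 1) := by
    intro j k hjk
    induction hjk with
    | refl => exact le_rfl
    | step h ih => exact (hu _).trans ih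
  -- (1) j * (u j - u (j+1)) ≤ u 0 - u j
  have h1 : ∀ j : ℕ, (j : ℝ) * (u j - u (j + 1)) ≤ u 0 - u j := by
    intro j
    induction j with
    | zero => simp
    | succ j ih =>
      have := hu j
      have hj : (0:ℝ) ≤ (j:ℝ) := Nat.cast_nonneg j
      push_cast
      nlinarith
  -- (2) for k : u j - u (j+k) ≤ k * (u j - u (j+1))
  have h2 : ∀ j k : ℕ, u j - u (j + k) ≤ (k : ℝ) * (u j - u (j + 1)) := by
    intro j k
    induction k with
    | zero => simp
    | succ k ih =>
      have := hd j (j + k) (by omega)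
      push_cast
      have e : j + (k + 1) = j + k + 1 := by ring
      rw [e]
      nlinarith
  intro j hj
  obtain ⟨k, rfl⟩ := Nat.exists_eq_add_of_le hj
  have a1 := h1 j
  have a2 := h2 j k
  push_cast
  have hk : (0:ℝ) ≤ (k:ℝ) := Nat.cast_nonneg k
  have hj' : (0:ℝ) ≤ (j:ℝ) := Nat.cast_nonneg j
  nlinarith [mul_le_mul_of_nonneg_left a1 hk, mul_le_mul_of_nonneg_left a2 hj']

theorem chord (f : ℝ → ℝ) (hf : Antitone f)
    (hd : ∀ c c' h, c ≤ c' → 0 ≤ h → f c' - f (c' + h) ≤ f c - f (c + h))
    (t T : ℝ) (hT : 0 < T) (h0 : f (t + T) = 0) (x : ℝ) (hx0 : 0 ≤ x) (hxT : x ≤ T) :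
    T * f (t + x) ≤ (T - x) * f t := by
  have hft : 0 ≤ f t := by rw [← h0]; exact hf (by linarith)
  have key : ∀ N : ℕ, 0 < N → T * f (t + x) ≤ (T - x) * f t + T / N * f t := by
    intro N hN
    have hN' : (0:ℝ) < N := Nat.cast_pos.mpr hN
    set j := ⌊x / T * N⌋₊ with hj
    have hxN : 0 ≤ x / T * N := by positivity
    have hj1 : (j:ℝ) ≤ x / T * N := Nat.floor_le hxN
    have hj2 : x / T * N < j + 1 := Nat.lt_floor_add_one _
    have hxT1 : x / T ≤ 1 := (div_le_one hT).mpr hxT
    have hjN : j ≤ N := by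
      have : (j:ℝ) ≤ N := by nlinarith
      exact_mod_cast this
    have hs := seq_conv (fun i => f (t + i * (T / N))) (by
      intro i
      have := hd (t + i * (T / N)) (t + (i + 1 : ℕ) * (T / N)) (T / N) (by
        push_cast
        have : 0 ≤ T / N := by positivity
        nlinarith) (by positivity)
      have e1 : t + (i + 1 : ℕ) * (T / N) + T / N = t + ((i + 2 : ℕ) : ℝ) * (T / N) := by
        push_cast; ring
      have e2 : t + (i:ℝ) * (T / N) + T / N = t + ((i + 1 : ℕ) : ℝ) * (T / N) := by
        push_cast; ring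
      rw [e1, e2] at this
      exact this) N j hjN
    have e3 : t + (N:ℝ) * (T / N) = t + T := by field_simp
    rw [e3, h0] at hs
    simp only [Nat.cast_zero, zero_mul, add_zero, mul_zero] at hs
    have hle : t + (j:ℝ) * (T / N) ≤ t + x := by
      have : (j:ℝ) * (T / N) ≤ x / T * N * (T / N) := by
        apply mul_le_mul_of_nonneg_right hj1; positivity
      have e4 : x / T * N * (T / N) = x := by field_simp
      linarith
    have hfx := hf hle
    have h5 : (N:ℝ) * f (t + x) ≤ ((N:ℝ) - j) * f t := by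
      refine le_trans ?_ hs
      exact mul_le_mul_of_nonneg_left hfx hN'.le
    have h6 : (N:ℝ) * f (t + x) ≤ ((N:ℝ) - x / T * N + 1) * f t := by
      refine le_trans h5 ?_
      apply mul_le_mul_of_nonneg_right _ hft
      linarith
    have h7 : T / N * ((N:ℝ) * f (t + x)) ≤ T / N * (((N:ℝ) - x / T * N + 1) * f t) :=
      mul_le_mul_of_nonneg_left h6 (by positivity)
    have e5 : T / N * ((N:ℝ) * f (t + x)) = T * f (t + x) := by field_simp
    have e6 : T / N * (((N:ℝ) - x / T * N + 1) * f t) = (T - x) * f t + T / N * f t := by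
      field_simp
    rw [e5, e6] at h7
    exact h7
  -- limit
  have hlim : Filter.Tendsto (fun N : ℕ => (T - x) * f t + T / (N:ℝ) * f t) Filter.atTop
      (nhds ((T - x) * f t + 0 * f t)) := by
    apply Filter.Tendsto.add tendsto_const_nhds
    apply Filter.Tendsto.mul_const
    exact tendsto_const_div_atTop_nhds_zero_nat T
  rw [zero_mul, add_zero] at hlim
  apply ge_of_tendsto hlim
  filter_upwards [Filter.eventually_gt_atTop 0] with N hN
  exact key N hN

end PollardAux

open PollardAux

/-- [P1] Pollard-type bound on the circle. -/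
theorem pollard (A : Set ℝ) (hA : MeasurableSet A) (hP : Per A) (t c : ℝ) (ht0 : 0 ≤ t)
    (htc : t ≤ c) (hta : t ≤ len A) (htc2 : len A + c - 2 * π ≤ t) (hc : c ≤ 2 * π) :
    ∫ x in (0:ℝ)..(2 * π), max (t - (volume (A ∩ Icc x (x + c))).toReal) 0
      ≤ t * (2 * π - len A - c + t) := by
  have h1 : (∫ x in (0:ℝ)..(2 * π), max (t - (volume (A ∩ Icc x (x + c))).toReal) 0) = Th A t c := by
    unfold Th
    congr 1
    ext x
    rw [F_sub A hA x (x + c) (by linarith)]
  rw [h1]
  rcases eq_or_lt_of_le (len_le A) with h2 | h2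
  · have h3 : c = t := by linarith
    rw [h3, Th_t A hA hP t ht0, h2]
    linarith
  · have h3 := chord (Th A t) (Th_anti A hA t)
      (fun c c' h hcc hh => Th_dec A hA hP t c c' h hcc hh) t (2 * π - len A) (by linarith)
      (by rw [show t + (2 * π - len A) = 2 * π - len A + t by ring]; exact Th_end A hA hP t hta)
      (c - t) (by linarith) (by linarith)
    rw [show t + (c - t) = c by ring, Th_t A hA hP t ht0] at h3
    have h4 : (2 * π - len A - (c - t)) * (t * (2 * π - len A))
      = (2 * π - len A) * (t * (2 * π - len A - c + t)) := by ring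
    rw [h4] at h3
    exact le_of_mul_le_mul_left h3 (by linarith)

namespace PollardAux

theorem measS (A B : Set ℝ) (hA : MeasurableSet A) (hB : MeasurableSet B) (x : ℝ) :
    MeasurableSet {p : ℝ × ℝ | p.1 ∈ A ∩ Ioo (-π) π ∧ p.2 ∈ B ∩ Ioo (-π) π ∧
      Real.cos x ≤ Real.cos (p.1 - p.2)} := by
  have h1 : MeasurableSet {p : ℝ × ℝ | p.1 ∈ A ∩ Ioo (-π) π} :=
    measurable_fst (hA.inter measurableSet_Ioo)
  have h2 : MeasurableSet {p : ℝ × ℝ | p.2 ∈ B ∩ Ioo (-π) π} :=
    measurable_snd (hB.inter measurableSet_Ioo)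
  have h3 : MeasurableSet {p : ℝ × ℝ | Real.cos x ≤ Real.cos (p.1 - p.2)} :=
    measurableSet_le measurable_const (by fun_prop)
  exact h1.inter (h2.inter h3)

theorem V_symm (A B : Set ℝ) (hA : MeasurableSet A) (hB : MeasurableSet B) (x : ℝ) :
    V A B x = V B A x := by
  unfold V
  have h := (Measure.measurePreserving_swap (μ := (volume : Measure ℝ))
    (ν := (volume : Measure ℝ))).measure_preimage (measS A B hA hB x).nullMeasurableSet
  rw [← h]
  congr 1
  ext ⟨u, v⟩
  simp only [mem_preimage, Prod.swap_prod_mk, mem_ofPred_eq]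
  have : Real.cos (v - u) = Real.cos (u - v) := by
    rw [← Real.cos_neg]; congr 1; ring
  rw [this]
  tauto

theorem slice_vol (A : Set ℝ) (hA : MeasurableSet A) (hPA : Per A) (x : ℝ) (hx0 : 0 ≤ x)
    (hx : x ≤ π) (y : ℝ) :
    volume {θ : ℝ | θ ∈ A ∩ Ioo (-π) π ∧ Real.cos x ≤ Real.cos (θ - y)}
      = ENNReal.ofReal (F A (y + x) - F A (y - x)) := by
  set C : Set ℝ := {θ : ℝ | θ ∈ A ∧ Real.cos x ≤ Real.cos (θ - y)} with hC
  have hCm : MeasurableSet C := by
    have h3 : MeasurableSet {θ : ℝ | Real.cos x ≤ Real.cos (θ - y)} :=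
      measurableSet_le measurable_const (by fun_prop)
    exact hA.inter h3
  have hCP : Per C := by
    intro t
    simp only [hC, mem_ofPred_eq]
    rw [hPA t, show t + 2 * π - y = t - y + 2 * π by ring, Real.cos_add_two_pi]
  have h1 : {θ : ℝ | θ ∈ A ∩ Ioo (-π) π ∧ Real.cos x ≤ Real.cos (θ - y)} = C ∩ Ioo (-π) π := by
    ext θ
    simp only [hC, mem_ofPred_eq, mem_inter_iff]
    tauto
  have h2 : C ∩ Icc (y - π) (y + π) = A ∩ Icc (y - x) (y + x) := by
    ext θ
    simp only [hC, mem_ofPred_eq, mem_inter_iff, mem_Icc]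
    have key : θ ∈ Icc (y - π) (y + π) → (Real.cos x ≤ Real.cos (θ - y) ↔ |θ - y| ≤ x) := by
      intro hθ
      have hab : |θ - y| ≤ π := by
        rw [abs_le]; constructor <;> linarith [hθ.1, hθ.2]
      rw [← Real.cos_abs (θ - y)]
      exact Real.strictAntiOn_cos.le_iff_ge ⟨hx0, hx⟩ ⟨abs_nonneg _, hab⟩
    constructor
    · rintro ⟨⟨h3, h4⟩, h5, h6⟩
      have h7 := (key ⟨h5, h6⟩).1 h4
      rw [abs_le] at h7
      exact ⟨h3, by linarith [h7.1], by linarith [h7.2]⟩
    · rintro ⟨h3, h4, h5⟩
      have h6 : θ ∈ Icc (y - π) (y + π) := ⟨by linarith, by linarith⟩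
      refine ⟨⟨h3, (key h6).2 ?_⟩, h6.1, h6.2⟩
      rw [abs_le]; constructor <;> linarith
  have h3 : len C = F A (y + x) - F A (y - x) := by
    have h4 := F_per C hCm hCP (y - π)
    have h5 : y - π + 2 * π = y + π := by ring
    rw [h5] at h4
    have h6 := F_sub C hCm (y - π) (y + π) (by linarith [Real.pi_pos])
    rw [h2, ← F_sub A hA (y - x) (y + x) (by linarith)] at h6
    linarith
  rw [h1, ← h3]
  unfold len
  rw [ENNReal.ofReal_toReal]
  exact ne_of_lt (lt_of_le_of_lt (measure_mono inter_subset_right) measure_Ioo_lt_top)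

theorem V_eq (A B : Set ℝ) (hA : MeasurableSet A) (hB : MeasurableSet B) (hPA : Per A)
    (x : ℝ) (hx0 : 0 ≤ x) (hx : x ≤ π) :
    V A B x = ENNReal.ofReal (∫ y in (-π)..π, ind B y * (F A (y + x) - F A (y - x))) := by
  have hF := F_cont A hA
  unfold V
  rw [Measure.prod_apply_symm (measS A B hA hB x)]
  have h1 : (fun y : ℝ => volume ((fun θ : ℝ => (θ, y)) ⁻¹' {p : ℝ × ℝ | p.1 ∈ A ∩ Ioo (-π) π ∧
      p.2 ∈ B ∩ Ioo (-π) π ∧ Real.cos x ≤ Real.cos (p.1 - p.2)}))
      = (B ∩ Ioo (-π) π).indicator
          (fun y => ENNReal.ofReal (F A (y + x) - F A (y - x))) := by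
    ext y
    by_cases hy : y ∈ B ∩ Ioo (-π) π
    · rw [indicator_of_mem hy, ← slice_vol A hA hPA x hx0 hx y]
      congr 1
      ext θ
      simp only [mem_preimage, mem_ofPred_eq]
      tauto
    · rw [indicator_of_notMem hy]
      have : ((fun θ : ℝ => (θ, y)) ⁻¹' {p : ℝ × ℝ | p.1 ∈ A ∩ Ioo (-π) π ∧
        p.2 ∈ B ∩ Ioo (-π) π ∧ Real.cos x ≤ Real.cos (p.1 - p.2)}) = ∅ := by
        ext θ
        simp only [mem_preimage, mem_ofPred_eq, mem_empty_iff_false, iff_false]
        tauto
      rw [this, measure_empty]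
  rw [h1, lintegral_indicator (hB.inter measurableSet_Ioo)]
  have hfin : volume (B ∩ Ioo (-π) π) < ∞ :=
    lt_of_le_of_lt (measure_mono inter_subset_right) measure_Ioo_lt_top
  rw [← ofReal_integral_eq_lintegral_ofReal]
  · congr 1
    rw [intervalIntegral.integral_of_le (by linarith [Real.pi_pos]), integral_Ioc_eq_integral_Ioo]
    have h2 : (fun y => ind B y * (F A (y + x) - F A (y - x))) =
        B.indicator (fun y => F A (y + x) - F A (y - x)) := by
      ext y
      unfold ind
      by_cases hy : y ∈ B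
      · rw [indicator_of_mem hy, indicator_of_mem hy, one_mul]
      · rw [indicator_of_notMem hy, indicator_of_notMem hy, zero_mul]
    rw [h2, setIntegral_indicator hB, inter_comm]
  · have h3 : IntegrableOn (fun y => F A (y + x) - F A (y - x)) (Icc (-π) π) volume := by
      apply ContinuousOn.integrableOn_Icc
      apply Continuous.continuousOn
      fun_prop
    exact h3.mono_set (fun y hy => ⟨hy.2.1.le, hy.2.2.le⟩)
  · filter_upwards with y
    have := F_mono A hA (show y - x ≤ y + x by linarith)
    simp only [Pi.zero_apply]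
    linarith

theorem int_shift (f : ℝ → ℝ) (hf : Function.Periodic f (2 * π)) (x : ℝ) :
    ∫ y in (-π)..π, f y = ∫ y in (0:ℝ)..(2 * π), f (y + x) := by
  rw [intervalIntegral.integral_comp_add_right]
  have h := hf.intervalIntegral_add_eq (-π) (0 + x)
  rw [show -π + 2 * π = π by ring] at h
  rw [h]
  congr 1
  ring

theorem bound1 (A B : Set ℝ) (hA : MeasurableSet A) (hB : MeasurableSet B)
    (x : ℝ) (M : ℝ) (hM : ∀ y, F A (y + x) - F A (y - x) ≤ M) :
    ∫ y in (-π)..π, ind B y * (F A (y + x) - F A (y - x)) ≤ M * len B := by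
  have hF := F_cont A hA
  have h1 : M * len B = ∫ y in (-π)..π, ind B y * M := by
    rw [intervalIntegral.integral_mul_const, ← len_eq B hB, mul_comm]
  rw [h1]
  apply intervalIntegral.integral_mono_on
  · linarith [Real.pi_pos]
  · apply IntervalIntegrable.mul_continuousOn (ind_ii B hB _ _)
    apply Continuous.continuousOn
    fun_prop
  · exact (ind_ii B hB _ _).mul_const M
  · intro y _
    apply mul_le_mul_of_nonneg_left (hM y)
    unfold ind
    exact indicator_nonneg (fun _ _ => zero_le_one) y

theorem bound2 (A B : Set ℝ) (hA : MeasurableSet A) (hB : MeasurableSet B) (hPA : Per A)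
    (x : ℝ) (hx : x ≤ π) (t : ℝ) (ht0 : 0 ≤ t)
    (htc : t ≤ 2 * x) (hta : t ≤ len A) (htc2 : len A + 2 * x - 2 * π ≤ t) :
    ∫ y in (-π)..π, ind B y * (F A (y + x) - F A (y - x))
      ≤ 2 * x * len A - t * (len A + 2 * x - len B - t) := by
  have hF := F_cont A hA
  set g : ℝ → ℝ := fun y => F A (y + x) - F A (y - x) with hg
  have hgc : Continuous g := by fun_prop
  have hgp : Function.Periodic g (2 * π) := by
    intro y
    simp only [hg]
    rw [show y + 2 * π + x = (y + x) + 2 * π by ring, show y + 2 * π - x = (y - x) + 2 * π by ring,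
      F_per A hA hPA, F_per A hA hPA]
    ring
  have h1 : ∫ y in (-π)..π, ind B y * g y
      ≤ ∫ y in (-π)..π, (ind B y * t + ((g y - t) + max (t - g y) 0)) := by
    apply intervalIntegral.integral_mono_on
    · linarith [Real.pi_pos]
    · exact IntervalIntegrable.mul_continuousOn (ind_ii B hB _ _) hgc.continuousOn
    · apply IntervalIntegrable.add ((ind_ii B hB _ _).mul_const t)
      apply Continuous.intervalIntegrable
      fun_prop
    · intro y _
      have hm1 : 0 ≤ (g y - t) + max (t - g y) 0 := by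
        have := le_max_left (t - g y) 0
        linarith
      have hm2 : (g y - t) ≤ (g y - t) + max (t - g y) 0 := by
        have := le_max_right (t - g y) 0
        linarith
      unfold ind
      by_cases hy : y ∈ B
      · rw [indicator_of_mem hy]; linarith
      · rw [indicator_of_notMem hy]; linarith
  refine le_trans h1 ?_
  rw [intervalIntegral.integral_add ((ind_ii B hB _ _).mul_const t)
    (by apply Continuous.intervalIntegrable; fun_prop),
    intervalIntegral.integral_add (by apply Continuous.intervalIntegrable; fun_prop)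
    (by apply Continuous.intervalIntegrable; fun_prop),
    intervalIntegral.integral_sub (by apply Continuous.intervalIntegrable; fun_prop)
    intervalIntegrable_const, intervalIntegral.integral_mul_const, ← len_eq B hB]
  have h2 : ∫ y in (-π)..π, g y = 2 * x * len A := by
    rw [int_shift g hgp x, ← int_diff A hA hPA (2 * x)]
    congr 1
    ext y
    simp only [hg]
    rw [show y + x + x = y + 2 * x by ring, show y + x - x = y by ring]
  have h3 : ∫ y in (-π)..π, max (t - g y) 0 ≤ t * (2 * π - len A - 2 * x + t) := by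
    rw [int_shift (fun y => max (t - g y) 0) (fun y => by simp only; rw [hgp y]) x]
    refine le_trans (le_of_eq ?_) (pollard A hA hPA t (2 * x) ht0 htc hta htc2 (by linarith))
    congr 1
    ext y
    simp only [hg]
    rw [show y + x + x = y + 2 * x by ring, show y + x - x = y by ring,
      F_sub A hA y (y + 2 * x) (by linarith)]
  rw [h2]
  have h4 : (∫ _y in (-π)..π, t) = 2 * π * t := by
    rw [intervalIntegral.integral_const, smul_eq_mul]; ring
  rw [h4]
  nlinarith

theorem V_le_aux (A B : Set ℝ) (hA : MeasurableSet A) (hB : MeasurableSet B) (hPA : Per A)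
    (x : ℝ) (hx0 : 0 ≤ x) (hx : x ≤ π) (hab : len B ≤ len A) :
    V A B x ≤ ENNReal.ofReal
      (Phi ((len A + len B) / 2) x - Phi (|len A - len B| / 2) x) := by
  rw [V_eq A B hA hB hPA x hx0 hx]
  apply ENNReal.ofReal_le_ofReal
  have ha := len_le A
  have hb := len_le B
  have ha0 := len_nonneg A
  have hb0 := len_nonneg B
  rw [abs_of_nonneg (by linarith)]
  have g1 : ∀ y, F A (y + x) - F A (y - x) ≤ 2 * x := by
    intro y
    have := F_lip A hA (y - x) (y + x) (by linarith)
    linarith
  have g2 : ∀ y, F A (y + x) - F A (y - x) ≤ len A := by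
    intro y
    have h1 := F_per A hA hPA (y - x)
    have h2 := F_mono A hA (show y + x ≤ y - x + 2 * π by linarith)
    linarith
  unfold Phi
  have hd3 : max ((len A - len B) / 2 - (2 * π - x)) 0 = 0 := by
    apply max_eq_right
    linarith
  rw [hd3]
  rcases lt_or_ge x ((len A - len B) / 2) with hc1 | hc1
  · -- x < d
    have h1 := bound1 A B hA hB x (2 * x) g1
    rw [max_eq_left (show 0 ≤ (len A + len B) / 2 - x by linarith),
      max_eq_left (show 0 ≤ (len A - len B) / 2 - x by linarith)]
    have h2 := sq_nonneg (max ((len A + len B) / 2 - (2 * π - x)) 0)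
    nlinarith
  · rcases lt_or_ge ((len A + len B) / 2) x with hc2 | hc2
    · have h1 := bound1 A B hA hB x (len A) g2
      rw [max_eq_right (show (len A + len B) / 2 - x ≤ 0 by linarith),
        max_eq_right (show (len A - len B) / 2 - x ≤ 0 by linarith)]
      have h2 := sq_nonneg (max ((len A + len B) / 2 - (2 * π - x)) 0)
      nlinarith
    · rw [max_eq_left (show 0 ≤ (len A + len B) / 2 - x by linarith),
        max_eq_right (show (len A - len B) / 2 - x ≤ 0 by linarith)]
      rcases le_or_gt ((len A + len B) / 2) (2 * π - x) with hc3 | hc3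
      · rw [max_eq_right (show (len A + len B) / 2 - (2 * π - x) ≤ 0 by linarith)]
        have h1 := bound2 A B hA hB hPA x hx (x + (len A - len B) / 2) (by linarith) (by linarith)
          (by linarith) (by linarith)
        refine le_trans h1 (le_of_eq ?_)
        ring
      · rw [max_eq_left (show 0 ≤ (len A + len B) / 2 - (2 * π - x) by linarith)]
        have h1 := bound2 A B hA hB hPA x hx (len A + 2 * x - 2 * π) (by linarith) (by linarith)
          (by linarith) (by linarith)
        refine le_trans h1 (le_of_eq ?_)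
        ring

end PollardAux

/-- [P2] rearrangement bound for the number of pairs at distance at most `x`. -/
theorem V_le (A B : Set ℝ) (hA : MeasurableSet A) (hB : MeasurableSet B) (hPA : Per A)
    (hPB : Per B) (x : ℝ) (hx0 : 0 ≤ x) (hx : x ≤ π) :
    V A B x ≤ ENNReal.ofReal
      (Phi ((len A + len B) / 2) x - Phi (|len A - len B| / 2) x) := by
  rcases le_total (len B) (len A) with h | h
  · exact V_le_aux A B hA hB hPA x hx0 hx h
  · rw [V_symm A B hA hB x, add_comm, abs_sub_comm]
    exact V_le_aux B A hB hA hPB x hx0 hx h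

end Pool.Agent.SSC3
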