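import Pool.Agent.SSC3.Defs

/-! `psd` and `psd_fin`: the positive definite part. -/

set_option autoImplicit false
open MeasureTheory ProbabilityTheory Set Real
open scoped ENNReal

namespace Pool.Agent.SSC3

namespace Psd

/-- coefficients of `cc` -/
noncomputable def co (k : ℕ) : ℝ :=
  (if k = 0 then 2 / 3 else 0) + 1 / 3 * ((1 / 2) ^ (2 * k) / ((2 * k).factorial : ℝ))

lemma co_nonneg (k : ℕ) : 0 ≤ co k := by
  unfold co
  have : (0:ℝ) ≤ if k = 0 then (2:ℝ) / 3 else 0 := by split_ifs <;> norm_num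
  positivity

lemma hasSum_cc (l : ℝ) : HasSum (fun k => co k * l ^ (2 * k)) (cc l) := by
  have h1 := (Real.hasSum_cosh (l / 2)).mul_left (1 / 3)
  have h2 : HasSum (fun k : ℕ => if k = 0 then (2:ℝ) / 3 else 0) (2 / 3) := hasSum_ite_eq 0 (2 / 3)
  have h3 := h2.add h1
  have e : cc l = 2 / 3 + 1 / 3 * Real.cosh (l / 2) := by unfold cc; ring
  rw [e]
  convert h3 using 1
  funext k
  unfold co
  rcases Nat.eq_zero_or_pos k with rfl | hk
  · simp
  · have hk' : k ≠ 0 := by omega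
    simp only [hk', if_false, zero_add]
    rw [div_pow, div_pow, one_pow]
    ring

lemma ofReal_cc (l y : ℝ) (hy : 0 ≤ y) :
    ENNReal.ofReal (cc l * y) = ∑' k : ℕ, ENNReal.ofReal (co k * l ^ (2 * k) * y) := by
  have h := (hasSum_cc l).mul_right y
  rw [← h.tsum_eq, ENNReal.ofReal_tsum_of_nonneg _ h.summable]
  intro k
  have := co_nonneg k
  have h2 : 0 ≤ l ^ (2 * k) := by rw [pow_mul]; positivity
  positivity

lemma cross (a b : ℝ≥0∞) : a * b + b * a ≤ a * a + b * b := by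
  rcases le_total a b with h | h
  · obtain ⟨d, rfl⟩ := exists_add_of_le h
    have e : a * a + (a + d) * (a + d) = (a * (a + d) + (a + d) * a) + d * d := by ring
    rw [e]; exact le_self_add
  · obtain ⟨d, rfl⟩ := exists_add_of_le h
    have e : (b + d) * (b + d) + b * b = ((b + d) * b + b * (b + d)) + d * d := by ring
    rw [e]; exact le_self_add

lemma sq_sum_le (X : Fin 3 → ℝ≥0∞) : (∑ i, X i) * (∑ i, X i) ≤ 3 * ∑ i, X i * X i := by
  rw [Fin.sum_univ_three, Fin.sum_univ_three]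
  have h1 := cross (X 0) (X 1)
  have h2 := cross (X 0) (X 2)
  have h3 := cross (X 1) (X 2)
  calc (X 0 + X 1 + X 2) * (X 0 + X 1 + X 2)
      = (X 0 * X 0 + X 1 * X 1 + X 2 * X 2) + ((X 0 * X 1 + X 1 * X 0) + (X 0 * X 2 + X 2 * X 0)
          + (X 1 * X 2 + X 2 * X 1)) := by ring
    _ ≤ (X 0 * X 0 + X 1 * X 1 + X 2 * X 2) + ((X 0 * X 0 + X 1 * X 1) + (X 0 * X 0 + X 2 * X 2)
          + (X 1 * X 1 + X 2 * X 2)) := by gcongr
    _ = 3 * (X 0 * X 0 + X 1 * X 1 + X 2 * X 2) := by ring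

lemma Q_ae (F G : ℝ × ℝ → ℝ≥0∞) (h : ∀ r s, 0 < r → 0 < s → F (r, s) = G (r, s)) :
    ∫⁻ p in Ioi (0:ℝ) ×ˢ Ioi (0:ℝ), F p = ∫⁻ p in Ioi (0:ℝ) ×ˢ Ioi (0:ℝ), G p := by
  refine setLIntegral_congr_fun (measurableSet_Ioi.prod measurableSet_Ioi) ?_
  rintro ⟨r, s⟩ ⟨hr, hs⟩
  exact h r s hr hs

lemma lint_prod (g h : ℝ → ℝ≥0∞) (hg : Measurable g) (hh : Measurable h) :
    ∫⁻ p in Ioi (0:ℝ) ×ˢ Ioi (0:ℝ), g p.1 * h p.2
      = (∫⁻ r in Ioi (0:ℝ), g r) * ∫⁻ s in Ioi (0:ℝ), h s := by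
  rw [Measure.volume_eq_prod, ← Measure.prod_restrict, lintegral_prod_mul hg.aemeasurable
    hh.aemeasurable]

end Psd

open Psd

/-- [P7] positive definiteness part. -/
theorem psd (b m : ℝ) (hm : 0 ≤ m) (f : Fin 3 → ℝ → ℝ) (hf : ∀ i, Measurable (f i))
    (hf0 : ∀ i r, 0 ≤ f i r) (hsum : ∀ r, 0 < r → ∑ i, f i r = 2 * π) :
    (∫⁻ p in Ioi (0:ℝ) ×ˢ Ioi (0:ℝ),
        ENNReal.ofReal (p.1 * p.2 * Real.exp (-(b * (p.1 ^ 2 + p.2 ^ 2)))) *
        ENNReal.ofReal (cc (m * p.1 * p.2) * ((2 * π) ^ 2 / 3)))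
      ≤ ∫⁻ p in Ioi (0:ℝ) ×ˢ Ioi (0:ℝ),
        ENNReal.ofReal (p.1 * p.2 * Real.exp (-(b * (p.1 ^ 2 + p.2 ^ 2)))) *
        ENNReal.ofReal (cc (m * p.1 * p.2) * ∑ i, f i p.1 * f i p.2) := by
  -- one variable weights
  set g : ℕ → Fin 3 → ℝ → ℝ≥0∞ := fun k i r =>
    ENNReal.ofReal (r ^ (2 * k + 1) * Real.exp (-(b * r ^ 2)) * f i r) with hg
  have hgm : ∀ k i, Measurable (g k i) := by
    intro k i
    rw [hg]
    have := hf i
    fun_prop
  set G : ℕ → ℝ → ℝ≥0∞ := fun k r => ∑ i, g k i r with hG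
  have hGm : ∀ k, Measurable (G k) := fun k => Finset.measurable_sum _ fun i _ => hgm k i
  have hG1 : ∀ k r, 0 < r → G k r = ENNReal.ofReal (r ^ (2 * k + 1) * Real.exp (-(b * r ^ 2)) *
      (2 * π)) := by
    intro k r hr
    rw [hG, hg]
    simp only
    rw [← ENNReal.ofReal_sum_of_nonneg]
    · rw [← Finset.mul_sum, hsum r hr]
    · intro i _
      have := hf0 i r
      positivity
  set C : ℕ → ℝ≥0∞ := fun k => ENNReal.ofReal (co k * m ^ (2 * k)) with hC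
  have hexp : ∀ r s : ℝ, Real.exp (-(b * (r ^ 2 + s ^ 2))) =
      Real.exp (-(b * r ^ 2)) * Real.exp (-(b * s ^ 2)) := by
    intro r s
    rw [← Real.exp_add]; congr 1; ring
  -- left side
  have hL : (∫⁻ p in Ioi (0:ℝ) ×ˢ Ioi (0:ℝ),
        ENNReal.ofReal (p.1 * p.2 * Real.exp (-(b * (p.1 ^ 2 + p.2 ^ 2)))) *
        ENNReal.ofReal (cc (m * p.1 * p.2) * ((2 * π) ^ 2 / 3)))
      = ∑' k, C k * (ENNReal.ofReal (1 / 3) * ((∑ i, ∫⁻ r in Ioi (0:ℝ), g k i r) *
        (∑ i, ∫⁻ r in Ioi (0:ℝ), g k i r))) := by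
    rw [Q_ae _ (fun p => ∑' k, C k * (ENNReal.ofReal (1 / 3) * (G k p.1 * G k p.2)))]
    · rw [lintegral_tsum]
      · congr 1
        funext k
        rw [lintegral_const_mul _ (by fun_prop), lintegral_const_mul _ (by fun_prop),
          lint_prod _ _ (hGm k) (hGm k)]
        have : ∫⁻ r in Ioi (0:ℝ), G k r = ∑ i, ∫⁻ r in Ioi (0:ℝ), g k i r := by
          rw [hG]
          exact lintegral_finsetSum _ fun i _ => hgm k i
        rw [this]
      · intro k
        have := hGm k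
        fun_prop
    · intro r s hr hs
      simp only
      rw [ofReal_cc _ _ (by positivity), ← ENNReal.tsum_mul_left]
      congr 1
      funext k
      rw [hG1 k r hr, hG1 k s hs, hC]
      simp only
      have h1 := co_nonneg k
      rw [← ENNReal.ofReal_mul (by positivity), ← ENNReal.ofReal_mul (by positivity),
        ← ENNReal.ofReal_mul (by positivity), ← ENNReal.ofReal_mul (by positivity), hexp]
      congr 1
      rw [mul_pow, mul_pow]
      ring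
  have hR : (∫⁻ p in Ioi (0:ℝ) ×ˢ Ioi (0:ℝ),
        ENNReal.ofReal (p.1 * p.2 * Real.exp (-(b * (p.1 ^ 2 + p.2 ^ 2)))) *
        ENNReal.ofReal (cc (m * p.1 * p.2) * ∑ i, f i p.1 * f i p.2))
      = ∑' k, C k * ∑ i, (∫⁻ r in Ioi (0:ℝ), g k i r) * (∫⁻ r in Ioi (0:ℝ), g k i r) := by
    rw [Q_ae _ (fun p => ∑' k, C k * ∑ i, g k i p.1 * g k i p.2)]
    · rw [lintegral_tsum]
      · congr 1
        funext k
        rw [lintegral_const_mul _ (by fun_prop)]
        congr 1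
        rw [lintegral_finsetSum]
        · exact Finset.sum_congr rfl fun i _ => lint_prod _ _ (hgm k i) (hgm k i)
        · intro i _
          have := hgm k i
          fun_prop
      · intro k
        have := hgm k
        fun_prop
    · intro r s hr hs
      simp only
      have hff : 0 ≤ ∑ i, f i r * f i s := Finset.sum_nonneg fun i _ => mul_nonneg (hf0 i r) (hf0 i s)
      rw [ofReal_cc _ _ hff, ← ENNReal.tsum_mul_left]
      congr 1
      funext k
      have h1 := co_nonneg k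
      rw [hC, hg]
      simp only
      have hi : ∀ i, ENNReal.ofReal (r ^ (2 * k + 1) * Real.exp (-(b * r ^ 2)) * f i r) *
          ENNReal.ofReal (s ^ (2 * k + 1) * Real.exp (-(b * s ^ 2)) * f i s) =
          ENNReal.ofReal (r ^ (2 * k + 1) * Real.exp (-(b * r ^ 2)) *
            (s ^ (2 * k + 1) * Real.exp (-(b * s ^ 2))) * (f i r * f i s)) := by
        intro i
        have := hf0 i r
        rw [← ENNReal.ofReal_mul (by positivity)]
        congr 1; ring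
      simp_rw [hi]
      rw [← ENNReal.ofReal_sum_of_nonneg, ← Finset.mul_sum, ← ENNReal.ofReal_mul (by positivity),
        ← ENNReal.ofReal_mul (by positivity), hexp]
      · congr 1
        rw [mul_pow, mul_pow]
        ring
      · intro i _
        have h2 := mul_nonneg (hf0 i r) (hf0 i s)
        positivity
  rw [hL, hR]
  refine ENNReal.tsum_le_tsum fun k => ?_
  gcongr C k * ?_
  have h3 : (3 : ℝ≥0∞) ≠ 0 := by norm_num
  have h3' : (3 : ℝ≥0∞) ≠ ⊤ := by norm_num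
  have e : ENNReal.ofReal (1 / 3) = 3⁻¹ := by
    rw [one_div, ENNReal.ofReal_inv_of_pos (by norm_num)]
    norm_num
  rw [e]
  calc 3⁻¹ * ((∑ i, ∫⁻ r in Ioi (0:ℝ), g k i r) * (∑ i, ∫⁻ r in Ioi (0:ℝ), g k i r))
      ≤ 3⁻¹ * (3 * ∑ i, (∫⁻ r in Ioi (0:ℝ), g k i r) * (∫⁻ r in Ioi (0:ℝ), g k i r)) := by
        exact mul_le_mul' le_rfl (sq_sum_le (fun i => ∫⁻ r in Ioi (0:ℝ), g k i r))
    _ = _ := by rw [← mul_assoc, ENNReal.inv_mul_cancel h3 h3', one_mul]

/-- [P8] finiteness. -/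
theorem psd_fin (b m : ℝ) (hm : 0 ≤ m) (hmb : m < 4 * b) :
    (∫⁻ p in Ioi (0:ℝ) ×ˢ Ioi (0:ℝ),
        ENNReal.ofReal (p.1 * p.2 * Real.exp (-(b * (p.1 ^ 2 + p.2 ^ 2)))) *
        ENNReal.ofReal (cc (m * p.1 * p.2) * ((2 * π) ^ 2 / 3))) ≠ ∞ := by
  set d : ℝ := b - m / 4 with hd
  have hd0 : 0 < d := by rw [hd]; linarith
  -- bound
  have hcc : ∀ r s : ℝ, 0 < r → 0 < s → cc (m * r * s) ≤ Real.exp (m / 4 * (r ^ 2 + s ^ 2)) := by
    intro r s hr hs
    unfold cc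
    have h0 : (0:ℝ) ≤ m / 4 * (r ^ 2 + s ^ 2) := by positivity
    have h1 : (1:ℝ) ≤ Real.exp (m / 4 * (r ^ 2 + s ^ 2)) := Real.one_le_exp h0
    have h2 : Real.cosh (m * r * s / 2) ≤ Real.exp (m / 4 * (r ^ 2 + s ^ 2)) := by
      have h3 : Real.cosh (m * r * s / 2) ≤ Real.exp (m * r * s / 2) := by
        rw [Real.cosh_eq]
        have : Real.exp (-(m * r * s / 2)) ≤ Real.exp (m * r * s / 2) := by
          apply Real.exp_le_exp.mpr
          have : 0 ≤ m * r * s / 2 := by positivity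
          linarith
        linarith
      refine h3.trans (Real.exp_le_exp.mpr ?_)
      nlinarith [mul_nonneg hm (sq_nonneg (r - s))]
    linarith
  set g : ℝ → ℝ≥0∞ := fun r => ENNReal.ofReal (r * Real.exp (-(d * r ^ 2))) with hg
  have hgm : Measurable g := by rw [hg]; fun_prop
  have hgfin : ∫⁻ r in Ioi (0:ℝ), g r ≠ ∞ := by
    have hi : IntegrableOn (fun r : ℝ => r * Real.exp (-(d * r ^ 2))) (Ioi 0) := by
      have := (integrable_mul_exp_neg_mul_sq hd0).integrableOn (s := Ioi (0:ℝ))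
      refine this.congr_fun ?_ measurableSet_Ioi
      intro r _
      simp [neg_mul]
    have := hi.lintegral_lt_top
    rw [hg]
    exact this.ne
  have hle : (∫⁻ p in Ioi (0:ℝ) ×ˢ Ioi (0:ℝ),
        ENNReal.ofReal (p.1 * p.2 * Real.exp (-(b * (p.1 ^ 2 + p.2 ^ 2)))) *
        ENNReal.ofReal (cc (m * p.1 * p.2) * ((2 * π) ^ 2 / 3)))
      ≤ ∫⁻ p in Ioi (0:ℝ) ×ˢ Ioi (0:ℝ), ENNReal.ofReal ((2 * π) ^ 2 / 3) * (g p.1 * g p.2) := by
    refine setLIntegral_mono' (measurableSet_Ioi.prod measurableSet_Ioi) ?_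
    rintro ⟨r, s⟩ ⟨hr, hs⟩
    simp only [mem_Ioi] at hr hs
    simp only [hg]
    rw [← ENNReal.ofReal_mul (by positivity), ← ENNReal.ofReal_mul (by positivity),
      ← ENNReal.ofReal_mul (by positivity)]
    apply ENNReal.ofReal_le_ofReal
    have h1 := hcc r s hr hs
    have e : Real.exp (-(b * (r ^ 2 + s ^ 2))) * Real.exp (m / 4 * (r ^ 2 + s ^ 2)) =
        Real.exp (-(d * r ^ 2)) * Real.exp (-(d * s ^ 2)) := by
      rw [← Real.exp_add, ← Real.exp_add]; congr 1; rw [hd]; ring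
    calc r * s * Real.exp (-(b * (r ^ 2 + s ^ 2))) * (cc (m * r * s) * ((2 * π) ^ 2 / 3))
        ≤ r * s * Real.exp (-(b * (r ^ 2 + s ^ 2))) * (Real.exp (m / 4 * (r ^ 2 + s ^ 2)) *
            ((2 * π) ^ 2 / 3)) := by gcongr
      _ = (2 * π) ^ 2 / 3 * (r * s * (Real.exp (-(b * (r ^ 2 + s ^ 2))) *
            Real.exp (m / 4 * (r ^ 2 + s ^ 2)))) := by ring
      _ = (2 * π) ^ 2 / 3 * (r * Real.exp (-(d * r ^ 2)) * (s * Real.exp (-(d * s ^ 2)))) := by
          rw [e]; ring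
  refine ne_top_of_le_ne_top ?_ hle
  rw [lintegral_const_mul _ (by fun_prop), lint_prod _ _ hgm hgm]
  exact ENNReal.mul_ne_top ENNReal.ofReal_ne_top (ENNReal.mul_ne_top hgfin hgfin)

end Pool.Agent.SSC3
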